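import Mathlib

/-!
# Rooted binary trees and lower bounds for their length
-/

set_option autoImplicit false

namespace Pool.Agent.E8helper35.Low

/-- Binary trees with labelled leaves and a point for every inner node. -/
inductive BT (ι E : Type) : Type
  | leaf (i : ι) : BT ι E
  | node (q : E) (l r : BT ι E) : BT ι E

namespace BT

variable {ι κ E : Type}

/-- The list of the leaves. -/
def leaves : BT ι E → List ι
  | leaf i => [i]
  | node _ l r => l.leaves ++ r.leaves

lemma leaves_ne_nil (t : BT ι E) : t.leaves ≠ [] := by
  induction t with
  | leaf i => simp [leaves]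
  | node q l r ihl ihr => simp [leaves, ihl]

/-- Every label is used exactly once. -/
def Full (t : BT ι E) : Prop := t.leaves.Nodup ∧ ∀ i, i ∈ t.leaves

/-- Relabel the leaves and move the points. -/
def map {E' : Type} (f : ι → κ) (h : E → E') : BT ι E → BT κ E'
  | leaf i => leaf (f i)
  | node q l r => node (h q) (l.map f h) (r.map f h)

lemma leaves_map {E' : Type} (f : ι → κ) (h : E → E') (t : BT ι E) :
    (t.map f h).leaves = t.leaves.map f := by
  induction t with
  | leaf i => rfl
  | node q l r ihl ihr => simp [map, leaves, ihl, ihr]

section len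

variable [PseudoMetricSpace E]

/-- The length of the tree with the leaf `i` at the point `a i`, including the edge from the root
point `p` to the top. -/
noncomputable def len (a : ι → E) : BT ι E → E → ℝ
  | leaf i, p => dist p (a i)
  | node q l r, p => dist p q + (l.len a q + r.len a q)

lemma len_nonneg (a : ι → E) (t : BT ι E) (p : E) : 0 ≤ t.len a p := by
  induction t generalizing p with
  | leaf i => exact dist_nonneg
  | node q l r ihl ihr => exact add_nonneg dist_nonneg (add_nonneg (ihl q) (ihr q))

lemma len_tri (a : ι → E) (t : BT ι E) (p y : E) : t.len a p ≤ dist p y + t.len a y := by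
  cases t with
  | leaf i => exact dist_triangle _ _ _
  | node q l r =>
    have := dist_triangle p y q
    simp only [len]
    linarith

lemma dist_le_len {a : ι → E} {t : BT ι E} {i : ι} (hi : i ∈ t.leaves) (p : E) :
    dist p (a i) ≤ t.len a p := by
  induction t generalizing p with
  | leaf j =>
    rw [leaves, List.mem_singleton] at hi
    rw [hi, len]
  | node q l r ihl ihr =>
    rw [leaves, List.mem_append] at hi
    have h1 := dist_triangle p q (a i)
    have h2 := len_nonneg a l q
    have h3 := len_nonneg a r q
    simp only [len]
    rcases hi with hi | hi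
    · have := ihl hi q
      linarith
    · have := ihr hi q
      linarith

lemma dist_le_len₂ {a : ι → E} {t : BT ι E} {i j : ι} (hi : i ∈ t.leaves) (hj : j ∈ t.leaves)
    (p : E) : dist (a i) (a j) ≤ t.len a p ∨ i = j := by
  induction t generalizing p with
  | leaf k =>
    rw [leaves, List.mem_singleton] at hi hj
    exact Or.inr (hi.trans hj.symm)
  | node q l r ihl ihr =>
    rw [leaves, List.mem_append] at hi hj
    have h2 := len_nonneg a l q
    have h3 := len_nonneg a r q
    have h4 : 0 ≤ dist p q := dist_nonneg
    simp only [len]
    rcases hi with hi | hi <;> rcases hj with hj | hj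
    · rcases ihl hi hj q with h | h
      · left; linarith
      · exact Or.inr h
    · left
      have h5 := dist_le_len (a := a) hi q
      have h6 := dist_le_len (a := a) hj q
      have h7 := dist_triangle_left (a i) (a j) q
      linarith
    · left
      have h5 := dist_le_len (a := a) hi q
      have h6 := dist_le_len (a := a) hj q
      have h7 := dist_triangle_left (a i) (a j) q
      linarith
    · rcases ihr hi hj q with h | h
      · left; linarith
      · exact Or.inr h

/-- Moving the leaves. -/
lemma len_move (a b : ι → E) (t : BT ι E) (p : E) :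
    t.len b p ≤ t.len a p + (t.leaves.map fun i => dist (a i) (b i)).sum := by
  induction t generalizing p with
  | leaf i =>
    simp only [len, leaves, List.map_cons, List.map_nil, List.sum_cons, List.sum_nil, add_zero]
    exact dist_triangle _ _ _
  | node q l r ihl ihr =>
    have h1 := ihl q
    have h2 := ihr q
    simp only [len, leaves, List.map_append, List.sum_append]
    linarith

lemma len_map {E' : Type} [PseudoMetricSpace E'] {a : ι → E} {b : κ → E'} (f : ι → κ)
    (h : E → E') (c : ℝ) (hc : ∀ x y, dist (h x) (h y) = c * dist x y) (t : BT ι E)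
    (hab : ∀ i ∈ t.leaves, b (f i) = h (a i)) (p : E) :
    (t.map f h).len b (h p) = c * t.len a p := by
  induction t generalizing p with
  | leaf i =>
    simp only [map, len]
    rw [hab i (by simp [leaves]), hc]
  | node q l r ihl ihr =>
    simp only [map, len]
    rw [hc, ihl (fun i hi => hab i (by simp [leaves, hi])),
      ihr (fun i hi => hab i (by simp [leaves, hi]))]
    ring

end len

/-! ### Certificates -/

section cert

variable [NormedAddCommGroup E] [InnerProductSpace ℝ E]

open scoped InnerProductSpace

/-- The sum of the vectors at the leaves. -/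
def vsum (g : ι → E) : BT ι E → E
  | leaf i => g i
  | node _ l r => l.vsum g + r.vsum g

/-- All subtrees have a sum of norm at most one. -/
def Cert (g : ι → E) : BT ι E → Prop
  | leaf i => ‖g i‖ ≤ 1
  | node _ l r => l.Cert g ∧ r.Cert g ∧ ‖l.vsum g + r.vsum g‖ ≤ 1

lemma vsum_eq (g : ι → E) (t : BT ι E) : t.vsum g = (t.leaves.map g).sum := by
  induction t with
  | leaf i => simp [vsum, leaves]
  | node q l r ihl ihr => simp [vsum, leaves, ihl, ihr]

lemma norm_vsum_le {g : ι → E} {t : BT ι E} (h : t.Cert g) : ‖t.vsum g‖ ≤ 1 := by
  cases t with
  | leaf i => exact h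
  | node q l r => exact h.2.2

/-- The certificate inequality. -/
lemma cert_le {g : ι → E} {t : BT ι E} (h : t.Cert g) (a : ι → E) (p : E) :
    ⟪p, t.vsum g⟫_ℝ - (t.leaves.map fun i => ⟪a i, g i⟫_ℝ).sum ≤ t.len a p := by
  have key : ∀ x y w : E, ‖w‖ ≤ 1 → ⟪x, w⟫_ℝ - ⟪y, w⟫_ℝ ≤ dist x y := by
    intro x y w hw
    rw [← inner_sub_left, dist_eq_norm]
    refine (real_inner_le_norm _ _).trans ?_
    exact mul_le_of_le_one_right (norm_nonneg _) hw
  induction t generalizing p with
  | leaf i =>
    simp only [vsum, leaves, len, List.map_cons, List.map_nil, List.sum_cons, List.sum_nil,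
      add_zero]
    exact key _ _ _ h
  | node q l r ihl ihr =>
    have h1 := ihl h.1 q
    have h2 := ihr h.2.1 q
    have h3 := key p q _ h.2.2
    simp only [vsum, leaves, len, List.map_append, List.sum_append, inner_add_right] at h3 ⊢
    linarith

end cert

end BT

end Pool.Agent.E8helper35.Low
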