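import Pool.Agent.E8helper35.Low.BT

/-!
# The lower bound for the five point gadget

All vectors are integer combinations of two unit vectors `u`, `v` with inner product `1 / 2`.
-/

set_option autoImplicit false

namespace Pool.Agent.E8helper35.Low

open scoped InnerProductSpace

/-- Shapes of binary trees with leaves in `Fin 5`. -/
inductive Sh : Type
  | leaf (i : Fin 5) : Sh
  | node (l r : Sh) : Sh
  deriving DecidableEq

namespace Sh

/-- The leaves. -/
def leaves : Sh → List (Fin 5)
  | leaf i => [i]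
  | node l r => l.leaves ++ r.leaves

/-- All trees with a given list of leaves. -/
def trees : ℕ → List (Fin 5) → List Sh
  | 0, _ => []
  | _ + 1, [] => []
  | _ + 1, [i] => [leaf i]
  | k + 1, L => (List.range L.length).flatMap fun j =>
      (trees k (L.take j)).flatMap fun l => (trees k (L.drop j)).map fun r => node l r

lemma leaves_length_pos (s : Sh) : 0 < s.leaves.length := by
  induction s with
  | leaf i => simp [leaves]
  | node l r ihl _ => simp only [leaves, List.length_append]; omega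

lemma mem_trees (s : Sh) : ∀ k, s.leaves.length ≤ k → s ∈ trees k s.leaves := by
  induction s with
  | leaf i =>
    intro k hk
    cases k with
    | zero => simp [leaves] at hk
    | succ k => simp [leaves, trees]
  | node l r ihl ihr =>
    intro k hk
    have hl := leaves_length_pos l
    have hr := leaves_length_pos r
    simp only [leaves, List.length_append] at hk
    cases k with
    | zero => omega
    | succ k =>
      have hlen : 2 ≤ (l.leaves ++ r.leaves).length := by
        rw [List.length_append]; omega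
      have heq : trees (k + 1) (l.leaves ++ r.leaves) =
          (List.range (l.leaves ++ r.leaves).length).flatMap fun j =>
            (trees k ((l.leaves ++ r.leaves).take j)).flatMap fun l' =>
              (trees k ((l.leaves ++ r.leaves).drop j)).map fun r' => node l' r' := by
        generalize l.leaves ++ r.leaves = M at hlen
        match M, hlen with
        | _ :: _ :: _, _ => rfl
      rw [leaves, heq, List.mem_flatMap]
      refine ⟨l.leaves.length, List.mem_range.2 (by rw [List.length_append]; omega), ?_⟩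
      rw [List.take_left', List.drop_left', List.mem_flatMap]
      · exact ⟨l, ihl k (by omega), List.mem_map.2 ⟨r, ihr k (by omega), rfl⟩⟩
      · rfl
      · rfl

end Sh

/-- Four times... the squared norm of `x u + y v`. -/
def nrm (z : ℤ × ℤ) : ℤ := z.1 * z.1 + z.1 * z.2 + z.2 * z.2

/-- The sum of the vectors. -/
def Sh.sum (g : Fin 5 → ℤ × ℤ) : Sh → ℤ × ℤ
  | .leaf i => g i
  | .node l r => (((l.sum g).1 + (r.sum g).1), ((l.sum g).2 + (r.sum g).2))

/-- All sums have norm at most `5000`. -/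
def Sh.ok (g : Fin 5 → ℤ × ℤ) : Sh → Bool
  | .leaf i => nrm (g i) ≤ 25000000
  | .node l r => l.ok g && r.ok g && decide (nrm ((Sh.node l r).sum g) ≤ 25000000)

/-- Five vectors. -/
def mk5 (a b c d e : ℤ × ℤ) : Fin 5 → ℤ × ℤ := ![a, b, c, d, e]

/-- The certificates. -/
def certs : List (Fin 5 → ℤ × ℤ) := [
  mk5 (-2879, 774) (0, 4999) (0, 4999) (5000, -4999) (2879, -5773),
  mk5 (-686, 3709) (-5645, 3871) (3667, 1815) (5686, -3709) (1978, -5686),
  mk5 (-4715, -526) (-242, 4716) (4715, 526) (4715, 526) (527, -5242),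
  mk5 (-703, 395) (-4603, 5315) (622, 4551) (4685, -5262) (4999, -4999),
  mk5 (2182, -2047) (-2856, 5772) (-1975, 5682) (5678, -3722) (1971, -5685),
  mk5 (-3233, 960) (-4813, 5168) (5168, -355) (5000, 0) (2878, -5773),
  mk5 (-807, -4540) (-4539, 5355) (757, 4510) (4914, -496) (4675, -4829),
  mk5 (286, -500) (-5228, 4730) (4712, 499) (4713, 509) (517, -5238),
  mk5 (-679, -1260) (0, 5000) (-1941, 5679) (5679, -3740) (1941, -5679),
  mk5 (-4352, 3891) (-5460, 4355) (4351, 1106) (5461, -4352) (5000, -5000),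
  mk5 (4122, -4497) (-4496, 5380) (806, 4456) (4736, -426) (-168, -4913),
  mk5 (-5685, 3714) (-650, 3851) (3677, 1833) (5685, -3713) (1973, -5685),
  mk5 (-1751, -1431) (-2887, 5773) (-658, 5296) (5296, -4638) (5000, -5000),
  mk5 (1415, 1156) (-4617, 5310) (684, 4612) (4625, -5305) (2893, -5773),
  mk5 (-783, -396) (-4807, 5167) (5162, -359) (4406, 1020) (1022, -5432),
  mk5 (0, -5000) (0, 5000) (0, 5000) (5000, 0) (0, -5000),
  mk5 (-5000, 0) (-5000, 5000) (5000, 0) (5000, 0) (5000, -5000)]

/-- The five points. -/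
def co5 : Fin 5 → ℤ × ℤ := mk5 (1, -6) (6, -16) (-3, -10) (-11, 0) (-10, 16)

/-- Twice the inner product. -/
def ip2 (z w : ℤ × ℤ) : ℤ := 2 * z.1 * w.1 + 2 * z.2 * w.2 + z.1 * w.2 + z.2 * w.1

lemma certs_sum : ∀ g ∈ certs, (∑ i, (g i).1 = 5000 ∧ ∑ i, (g i).2 = 0) ∧
    ∑ i, ip2 (co5 i) (g i) ≤ -410000 := by
  decide +kernel

lemma certs_ok : ∀ L ∈ List.permutations' [0, 1, 2, 3, 4], ∀ s ∈ Sh.trees 5 L,
    certs.any (fun g => s.ok g) = true := by
  decide +kernel

variable {E : Type} [NormedAddCommGroup E] [InnerProductSpace ℝ E]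

/-- A pair of unit vectors at the angle of sixty degrees. -/
structure Frame (u v : E) : Prop where
  uu : ‖u‖ = 1
  vv : ‖v‖ = 1
  uv : ⟪u, v⟫_ℝ = 1 / 2

/-- The vector with given coordinates. -/
def vec (u v : E) (x y : ℝ) : E := x • u + y • v

lemma Frame.inner {u v : E} (h : Frame u v) (x y x' y' : ℝ) :
    ⟪vec u v x y, vec u v x' y'⟫_ℝ = x * x' + y * y' + (x * y' + y * x') / 2 := by
  have h1 : ⟪u, u⟫_ℝ = 1 := by rw [real_inner_self_eq_norm_sq, h.uu]; norm_num
  have h2 : ⟪v, v⟫_ℝ = 1 := by rw [real_inner_self_eq_norm_sq, h.vv]; norm_num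
  have h3 : ⟪v, u⟫_ℝ = 1 / 2 := by rw [real_inner_comm]; exact h.uv
  simp only [vec, inner_add_left, inner_add_right, inner_smul_left, inner_smul_right, h1, h2, h3,
    h.uv, conj_trivial]
  ring

lemma Frame.norm_sq {u v : E} (h : Frame u v) (x y : ℝ) :
    ‖vec u v x y‖ ^ 2 = x ^ 2 + x * y + y ^ 2 := by
  rw [← real_inner_self_eq_norm_sq, h.inner]
  ring

lemma vec_add {u v : E} (x y x' y' : ℝ) :
    vec u v x y + vec u v x' y' = vec u v (x + x') (y + y') := by
  simp only [vec]
  module

/-- The position of the five points. -/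
noncomputable def a5 (u v : E) (i : Fin 5) : E := vec u v (co5 i).1 (co5 i).2

/-- The vectors of a certificate. -/
noncomputable def gv (u v : E) (g : Fin 5 → ℤ × ℤ) (i : Fin 5) : E :=
  vec u v ((g i).1 / 5000) ((g i).2 / 5000)

/-- The shape of a tree. -/
def BT.shape : BT (Fin 5) E → Sh
  | .leaf i => .leaf i
  | .node _ l r => .node l.shape r.shape

lemma BT.leaves_shape (t : BT (Fin 5) E) : t.shape.leaves = t.leaves := by
  induction t with
  | leaf i => rfl
  | node q l r ihl ihr => simp [BT.shape, Sh.leaves, BT.leaves, ihl, ihr]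

lemma vsum_shape {u v : E} (g : Fin 5 → ℤ × ℤ) (t : BT (Fin 5) E) :
    t.vsum (gv u v g) = vec u v ((t.shape.sum g).1 / 5000) ((t.shape.sum g).2 / 5000) := by
  induction t with
  | leaf i => rfl
  | node q l r ihl ihr =>
    rw [BT.vsum, ihl, ihr, vec_add, BT.shape, Sh.sum]
    push_cast
    congr 1 <;> ring

lemma norm_le_of_nrm {u v : E} (h : Frame u v) {z : ℤ × ℤ} (hz : nrm z ≤ 25000000) :
    ‖vec u v (z.1 / 5000) (z.2 / 5000)‖ ≤ 1 := by
  have h1 := h.norm_sq ((z.1 : ℝ) / 5000) ((z.2 : ℝ) / 5000)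
  have h2 : ((z.1 * z.1 + z.1 * z.2 + z.2 * z.2 : ℤ) : ℝ) ≤ 25000000 := by exact_mod_cast hz
  push_cast at h2
  have h3 : ‖vec u v ((z.1 : ℝ) / 5000) ((z.2 : ℝ) / 5000)‖ ^ 2 ≤ 1 := by
    rw [h1]
    nlinarith
  have h4 := norm_nonneg (vec u v ((z.1 : ℝ) / 5000) ((z.2 : ℝ) / 5000))
  nlinarith

lemma cert_shape {u v : E} (h : Frame u v) (g : Fin 5 → ℤ × ℤ) (t : BT (Fin 5) E)
    (hok : t.shape.ok g = true) : t.Cert (gv u v g) := by
  induction t with
  | leaf i =>
    simp only [BT.shape, Sh.ok, decide_eq_true_eq] at hok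
    exact norm_le_of_nrm h hok
  | node q l r ihl ihr =>
    simp only [BT.shape, Sh.ok, Bool.and_eq_true, decide_eq_true_eq] at hok
    refine ⟨ihl hok.1.1, ihr hok.1.2, ?_⟩
    have h1 := vsum_shape (u := u) (v := v) g (BT.node q l r)
    rw [BT.vsum] at h1
    rw [h1]
    exact norm_le_of_nrm h hok.2

/-- The lower bound property of a configuration: `m + ⟪p, u⟫` is a lower bound for the length of
all trees with root `p`. -/
def LB {ι : Type} (u : E) (a : ι → E) (m : ℝ) : Prop :=
  ∀ t : BT ι E, t.Full → ∀ p, m + ⟪p, u⟫_ℝ ≤ t.len a p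

lemma BT.Full.map_sum {ι : Type} [Fintype ι] {t : BT ι E} (ht : t.Full) {M : Type}
    [AddCommMonoid M] (f : ι → M) : (t.leaves.map f).sum = ∑ i, f i := by
  classical
  rw [← List.sum_toFinset f ht.1]
  congr 1
  ext i
  simp [ht.2 i]

/-- **The lower bound for the five point gadget.** -/
theorem lb5 {u v : E} (h : Frame u v) : LB u (a5 u v) 41 := by
  intro t ht p
  have hperm : t.shape.leaves ∈ List.permutations' [0, 1, 2, 3, 4] := by
    rw [List.mem_permutations', BT.leaves_shape]
    rw [List.perm_iff_count]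
    intro i
    have h1 : t.leaves.count i = 1 := List.count_eq_one_of_mem ht.1 (ht.2 i)
    rw [h1]
    fin_cases i <;> decide
  have hlen : t.shape.leaves.length ≤ 5 := by
    rw [List.mem_permutations'] at hperm
    rw [hperm.length_eq]
    rfl
  have h1 := certs_ok _ hperm _ (Sh.mem_trees t.shape 5 hlen)
  obtain ⟨g, hg, hok⟩ := List.any_eq_true.1 h1
  obtain ⟨⟨h2, h3⟩, h4⟩ := certs_sum g hg
  have h5 := BT.cert_le (cert_shape h g t hok) (a5 u v) p
  have hG : t.vsum (gv u v g) = u := by
    rw [BT.vsum_eq, ht.map_sum]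
    have e1 : ∑ i, gv u v g i = vec u v (∑ i, ((g i).1 : ℝ) / 5000) (∑ i, ((g i).2 : ℝ) / 5000) := by
      simp only [gv, vec, Finset.sum_add_distrib, Finset.sum_smul]
    have e2 : ∑ i, ((g i).1 : ℝ) / 5000 = 1 := by
      rw [← Finset.sum_div]
      have : ((∑ i, (g i).1 : ℤ) : ℝ) = 5000 := by exact_mod_cast h2
      push_cast at this
      rw [this]
      norm_num
    have e3 : ∑ i, ((g i).2 : ℝ) / 5000 = 0 := by
      rw [← Finset.sum_div]
      have : ((∑ i, (g i).2 : ℤ) : ℝ) = 0 := by exact_mod_cast h3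
      push_cast at this
      rw [this]
      norm_num
    rw [e1, e2, e3]
    simp [vec]
  have hS : (t.leaves.map fun i => ⟪a5 u v i, gv u v g i⟫_ℝ).sum ≤ -41 := by
    rw [ht.map_sum]
    have e1 : ∀ i, ⟪a5 u v i, gv u v g i⟫_ℝ = ((ip2 (co5 i) (g i) : ℤ) : ℝ) / 10000 := by
      intro i
      rw [a5, gv, h.inner, ip2]
      push_cast
      ring
    simp only [e1]
    rw [← Finset.sum_div]
    have : ((∑ i, ip2 (co5 i) (g i) : ℤ) : ℝ) ≤ -410000 := by exact_mod_cast h4
    push_cast at this ⊢
    linarith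
  rw [hG] at h5
  linarith

end Pool.Agent.E8helper35.Low
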