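import Pool.Agent.E8helper35.Low.Glue

/-!
# Full trees with parent pointers
-/

set_option autoImplicit false

namespace Pool.Agent.E8helper35.Low

open scoped InnerProductSpace

/-- A rooted tree: every vertex but the top has a parent; leaves have labels; vertices have
positions. -/
structure FT (E ι : Type) : Type 1 where
  V : Type
  fin : Fintype V
  par : V → Option V
  dep : V → ℕ
  lab : V → Option ι
  pos : V → E
  top : V

attribute [instance] FT.fin

namespace FT

variable {E ι ι₁ ι₂ : Type}

/-- The tree is a full binary tree with leaves at the points `a`, and all edges have positive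
length. -/
structure OK (T : FT E ι) (a : ι → E) : Prop where
  par_top : T.par T.top = none
  top_of : ∀ v, T.par v = none → v = T.top
  dep_lt : ∀ v w, T.par v = some w → T.dep w < T.dep v
  lab_ex : ∀ i, ∃ v, T.lab v = some i
  lab_inj : ∀ v w i, T.lab v = some i → T.lab w = some i → v = w
  leaf : ∀ v w i, T.lab w = some i → T.par v ≠ some w
  two : ∀ v, T.lab v = none → ∃ c₁ c₂, c₁ ≠ c₂ ∧ ∀ w, T.par w = some v ↔ w = c₁ ∨ w = c₂
  pos_lab : ∀ v i, T.lab v = some i → T.pos v = a i
  pos_ne : ∀ v w, T.par v = some w → T.pos v ≠ T.pos w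

/-- The composition of two trees. -/
def comp (T₁ : FT E ι₁) (T₂ : FT E ι₂) (f₁ f₂ : E → E) (q : E) : FT E (ι₁ ⊕ ι₂) where
  V := Option (T₁.V ⊕ T₂.V)
  fin := inferInstance
  par := fun x => x.elim none (Sum.elim (fun v => some ((T₁.par v).map Sum.inl))
    fun v => some ((T₂.par v).map Sum.inr))
  dep := fun x => x.elim 0 (Sum.elim (fun v => T₁.dep v + 1) fun v => T₂.dep v + 1)
  lab := fun x => x.elim none (Sum.elim (fun v => (T₁.lab v).map Sum.inl)
    fun v => (T₂.lab v).map Sum.inr)
  pos := fun x => x.elim q (Sum.elim (fun v => f₁ (T₁.pos v)) fun v => f₂ (T₂.pos v))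
  top := none

variable {T₁ : FT E ι₁} {T₂ : FT E ι₂} {a₁ : ι₁ → E} {a₂ : ι₂ → E} {f₁ f₂ : E → E} {q : E}

lemma comp_ok (h₁ : T₁.OK a₁) (h₂ : T₂.OK a₂) (hf₁ : Function.Injective f₁)
    (hf₂ : Function.Injective f₂) (hq₁ : f₁ (T₁.pos T₁.top) ≠ q)
    (hq₂ : f₂ (T₂.pos T₂.top) ≠ q) {a : ι₁ ⊕ ι₂ → E} (ha₁ : ∀ i, a (Sum.inl i) = f₁ (a₁ i))
    (ha₂ : ∀ i, a (Sum.inr i) = f₂ (a₂ i)) : (comp T₁ T₂ f₁ f₂ q).OK a where
  par_top := rfl
  top_of := by
    rintro (_ | v | v) hv
    · rfl
    · exact absurd hv (by simp [comp])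
    · exact absurd hv (by simp [comp])
  dep_lt := by
    rintro (_ | v | v) w hw
    · exact absurd hw (by simp [comp])
    · obtain rfl := Option.some.inj hw
      cases h : T₁.par v with
      | none => simp [comp]
      | some w => simpa [comp] using h₁.dep_lt v w h
    · obtain rfl := Option.some.inj hw
      cases h : T₂.par v with
      | none => simp [comp]
      | some w => simpa [comp] using h₂.dep_lt v w h
  lab_ex := by
    rintro (i | i)
    · obtain ⟨v, hv⟩ := h₁.lab_ex i
      exact ⟨some (Sum.inl v), by simp [comp, hv]⟩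
    · obtain ⟨v, hv⟩ := h₂.lab_ex i
      exact ⟨some (Sum.inr v), by simp [comp, hv]⟩
  lab_inj := by
    rintro (_ | v | v) (_ | w | w) i hv hw
    · rfl
    · exact absurd hv (by simp [comp])
    · exact absurd hv (by simp [comp])
    · exact absurd hw (by simp [comp])
    · simp only [comp, Option.elim_some, Sum.elim_inl, Option.map_eq_some_iff] at hv hw
      obtain ⟨j, hj, rfl⟩ := hv
      obtain ⟨k, hk, hkj⟩ := hw
      rw [Sum.inl.injEq] at hkj
      subst hkj
      rw [h₁.lab_inj v w k hj hk]
    · simp only [comp, Option.elim_some, Sum.elim_inl, Sum.elim_inr, Option.map_eq_some_iff] at hv hw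
      obtain ⟨j, hj, rfl⟩ := hv
      obtain ⟨k, hk, hkj⟩ := hw
      exact absurd hkj (by simp)
    · exact absurd hw (by simp [comp])
    · simp only [comp, Option.elim_some, Sum.elim_inl, Sum.elim_inr, Option.map_eq_some_iff] at hv hw
      obtain ⟨j, hj, rfl⟩ := hv
      obtain ⟨k, hk, hkj⟩ := hw
      exact absurd hkj (by simp)
    · simp only [comp, Option.elim_some, Sum.elim_inr, Option.map_eq_some_iff] at hv hw
      obtain ⟨j, hj, rfl⟩ := hv
      obtain ⟨k, hk, hkj⟩ := hw
      rw [Sum.inr.injEq] at hkj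
      subst hkj
      rw [h₂.lab_inj v w k hj hk]
  leaf := by
    rintro (_ | v | v) (_ | w | w) i hw hv
    · exact absurd hw (by simp [comp])
    · exact absurd hv (by simp [comp])
    · exact absurd hv (by simp [comp])
    · exact absurd hw (by simp [comp])
    · simp only [comp, Option.elim_some, Sum.elim_inl, Option.map_eq_some_iff,
        Option.some.injEq] at hv hw
      obtain ⟨j, hj, rfl⟩ := hw
      obtain ⟨x, hx, hxw⟩ := hv
      rw [Sum.inl.injEq] at hxw
      subst hxw
      exact h₁.leaf v x j hj hx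
    · simp only [comp, Option.elim_some, Sum.elim_inl, Option.map_eq_some_iff,
        Option.some.injEq] at hv
      obtain ⟨x, hx, hxw⟩ := hv
      exact absurd hxw (by simp)
    · exact absurd hw (by simp [comp])
    · simp only [comp, Option.elim_some, Sum.elim_inr, Option.map_eq_some_iff,
        Option.some.injEq] at hv
      obtain ⟨x, hx, hxw⟩ := hv
      exact absurd hxw (by simp)
    · simp only [comp, Option.elim_some, Sum.elim_inr, Option.map_eq_some_iff,
        Option.some.injEq] at hv hw
      obtain ⟨j, hj, rfl⟩ := hw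
      obtain ⟨x, hx, hxw⟩ := hv
      rw [Sum.inr.injEq] at hxw
      subst hxw
      exact h₂.leaf v x j hj hx
  two := by
    rintro (_ | v | v) hv
    · refine ⟨some (Sum.inl T₁.top), some (Sum.inr T₂.top),
        fun h => absurd (Option.some.inj h) (by simp), ?_⟩
      rintro (_ | w | w)
      · simp [comp]
      · simp only [comp, Option.elim_some, Sum.elim_inl, Option.some.injEq, Option.map_eq_none_iff,
          Sum.inl.injEq, reduceCtorEq, or_false]
        exact ⟨h₁.top_of w, fun h => h ▸ h₁.par_top⟩
      · simp only [comp, Option.elim_some, Sum.elim_inr, Option.some.injEq, Option.map_eq_none_iff,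
          Sum.inr.injEq, reduceCtorEq, false_or]
        exact ⟨h₂.top_of w, fun h => h ▸ h₂.par_top⟩
    · simp only [comp, Option.elim_some, Sum.elim_inl, Option.map_eq_none_iff] at hv
      obtain ⟨c₁, c₂, hne, hc⟩ := h₁.two v hv
      refine ⟨some (Sum.inl c₁), some (Sum.inl c₂),
        fun h => hne (Sum.inl_injective (Option.some.inj h)), ?_⟩
      rintro (_ | w | w)
      · simp [comp]
      · simp [comp, hc]
      · simp [comp]
    · simp only [comp, Option.elim_some, Sum.elim_inr, Option.map_eq_none_iff] at hv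
      obtain ⟨c₁, c₂, hne, hc⟩ := h₂.two v hv
      refine ⟨some (Sum.inr c₁), some (Sum.inr c₂),
        fun h => hne (Sum.inr_injective (Option.some.inj h)), ?_⟩
      rintro (_ | w | w)
      · simp [comp]
      · simp [comp]
      · simp [comp, hc]
  pos_lab := by
    rintro (_ | v | v) i hv
    · exact absurd hv (by simp [comp])
    · simp only [comp, Option.elim_some, Sum.elim_inl, Option.map_eq_some_iff] at hv
      obtain ⟨j, hj, rfl⟩ := hv
      simp [comp, ha₁, h₁.pos_lab v j hj]
    · simp only [comp, Option.elim_some, Sum.elim_inr, Option.map_eq_some_iff] at hv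
      obtain ⟨j, hj, rfl⟩ := hv
      simp [comp, ha₂, h₂.pos_lab v j hj]
  pos_ne := by
    rintro (_ | v | v) w hw
    · exact absurd hw (by simp [comp])
    · obtain rfl := Option.some.inj hw
      cases h : T₁.par v with
      | none =>
        rw [h₁.top_of v h]
        simpa [comp] using hq₁
      | some w =>
        have := h₁.pos_ne v w h
        simpa [comp] using hf₁.ne this
    · obtain rfl := Option.some.inj hw
      cases h : T₂.par v with
      | none =>
        rw [h₂.top_of v h]
        simpa [comp] using hq₂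
      | some w =>
        have := h₂.pos_ne v w h
        simpa [comp] using hf₂.ne this

/-- Two leaves are siblings. -/
def Sib (T : FT E ι) (i j : ι) : Prop :=
  i ≠ j ∧ ∃ v w x, T.lab v = some i ∧ T.lab w = some j ∧ T.par v = some x ∧ T.par w = some x

lemma sib_comp_inl (h₁ : T₁.OK a₁) (i j : ι₁) :
    (comp T₁ T₂ f₁ f₂ q).Sib (Sum.inl i) (Sum.inl j) ↔ T₁.Sib i j := by
  constructor
  · rintro ⟨hne, v, w, x, hv, hw, hpv, hpw⟩
    have hne' : i ≠ j := fun h => hne (by rw [h])
    rcases v with _ | v | v
    · exact absurd hv (by simp [comp])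
    · rcases w with _ | w | w
      · exact absurd hw (by simp [comp])
      · simp only [comp, Option.elim_some, Sum.elim_inl, Option.map_eq_some_iff, Sum.inl.injEq,
          exists_eq_right] at hv hw hpv hpw
        replace hpv := Option.some.inj hpv
        replace hpw := Option.some.inj hpw
        rcases x with _ | x
        · rw [Option.map_eq_none_iff] at hpv hpw
          rw [h₁.top_of v hpv] at hv
          rw [h₁.top_of w hpw, hv] at hw
          exact absurd (Option.some.inj hw) hne'
        · rw [Option.map_eq_some_iff] at hpv hpw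
          obtain ⟨y, hy, hyx⟩ := hpv
          obtain ⟨z, hz, hzx⟩ := hpw
          have hyz : y = z := Sum.inl_injective (hyx.trans hzx.symm)
          exact ⟨hne', v, w, y, hv, hw, hy, hyz ▸ hz⟩
      · simp only [comp, Option.elim_some, Sum.elim_inr, Option.map_eq_some_iff] at hw
        obtain ⟨k, -, hk⟩ := hw
        exact absurd hk (by simp)
    · simp only [comp, Option.elim_some, Sum.elim_inr, Option.map_eq_some_iff] at hv
      obtain ⟨k, -, hk⟩ := hv
      exact absurd hk (by simp)
  · rintro ⟨hne, v, w, x, hv, hw, hpv, hpw⟩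
    refine ⟨fun h => hne (Sum.inl_injective h), some (Sum.inl v), some (Sum.inl w),
      some (Sum.inl x), ?_, ?_, ?_, ?_⟩
    · simp [comp, hv]
    · simp [comp, hw]
    · simp [comp, hpv]
    · simp [comp, hpw]

lemma sib_comp_inr (h₂ : T₂.OK a₂) (i j : ι₂) :
    (comp T₁ T₂ f₁ f₂ q).Sib (Sum.inr i) (Sum.inr j) ↔ T₂.Sib i j := by
  constructor
  · rintro ⟨hne, v, w, x, hv, hw, hpv, hpw⟩
    have hne' : i ≠ j := fun h => hne (by rw [h])
    rcases v with _ | v | v
    · exact absurd hv (by simp [comp])
    · simp only [comp, Option.elim_some, Sum.elim_inl, Option.map_eq_some_iff] at hv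
      obtain ⟨k, -, hk⟩ := hv
      exact absurd hk (by simp)
    · rcases w with _ | w | w
      · exact absurd hw (by simp [comp])
      · simp only [comp, Option.elim_some, Sum.elim_inl, Option.map_eq_some_iff] at hw
        obtain ⟨k, -, hk⟩ := hw
        exact absurd hk (by simp)
      · simp only [comp, Option.elim_some, Sum.elim_inr, Option.map_eq_some_iff, Sum.inr.injEq,
          exists_eq_right] at hv hw hpv hpw
        replace hpv := Option.some.inj hpv
        replace hpw := Option.some.inj hpw
        rcases x with _ | x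
        · rw [Option.map_eq_none_iff] at hpv hpw
          rw [h₂.top_of v hpv] at hv
          rw [h₂.top_of w hpw, hv] at hw
          exact absurd (Option.some.inj hw) hne'
        · rw [Option.map_eq_some_iff] at hpv hpw
          obtain ⟨y, hy, hyx⟩ := hpv
          obtain ⟨z, hz, hzx⟩ := hpw
          have hyz : y = z := Sum.inr_injective (hyx.trans hzx.symm)
          exact ⟨hne', v, w, y, hv, hw, hy, hyz ▸ hz⟩
  · rintro ⟨hne, v, w, x, hv, hw, hpv, hpw⟩
    refine ⟨fun h => hne (Sum.inr_injective h), some (Sum.inr v), some (Sum.inr w),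
      some (Sum.inr x), ?_, ?_, ?_, ?_⟩
    · simp [comp, hv]
    · simp [comp, hw]
    · simp [comp, hpv]
    · simp [comp, hpw]

section len

variable [PseudoMetricSpace E]

/-- The total length of the edges. -/
noncomputable def W (T : FT E ι) : ℝ :=
  ∑ v, (T.par v).elim 0 fun w => dist (T.pos v) (T.pos w)

lemma sum_part (h₁ : T₁.OK a₁) (c : ℝ) (hc : ∀ x y, dist (f₁ x) (f₁ y) = c * dist x y)
    {β : Type} (pos' : Option β → E) (g : T₁.V → β) (hn : pos' none = q)
    (hs : ∀ v, pos' (some (g v)) = f₁ (T₁.pos v)) :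
    ∑ v, dist (f₁ (T₁.pos v)) (pos' ((T₁.par v).map g)) =
      c * T₁.W + dist (f₁ (T₁.pos T₁.top)) q := by
  classical
  have h1 : ∀ v, dist (f₁ (T₁.pos v)) (pos' ((T₁.par v).map g)) =
      c * ((T₁.par v).elim 0 fun w => dist (T₁.pos v) (T₁.pos w)) +
        if v = T₁.top then dist (f₁ (T₁.pos T₁.top)) q else 0 := by
    intro v
    by_cases hv : v = T₁.top
    · subst hv
      rw [h₁.par_top, if_pos rfl]
      simp [hn]
    · rw [if_neg hv]
      cases h : T₁.par v with
      | none => exact absurd (h₁.top_of v h) hv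
      | some w => simp [hs, hc]
  simp only [h1, Finset.sum_add_distrib, ← Finset.mul_sum, Finset.sum_ite_eq', Finset.mem_univ,
    if_true]
  rfl

lemma comp_W (h₁ : T₁.OK a₁) (h₂ : T₂.OK a₂) (c₁ c₂ : ℝ)
    (hc₁ : ∀ x y, dist (f₁ x) (f₁ y) = c₁ * dist x y)
    (hc₂ : ∀ x y, dist (f₂ x) (f₂ y) = c₂ * dist x y) :
    (comp T₁ T₂ f₁ f₂ q).W = c₁ * T₁.W + dist (f₁ (T₁.pos T₁.top)) q +
      (c₂ * T₂.W + dist (f₂ (T₂.pos T₂.top)) q) := by
  have e1 := sum_part (q := q) h₁ c₁ hc₁ (comp T₁ T₂ f₁ f₂ q).pos Sum.inl rfl (fun _ => rfl)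
  have e2 := sum_part (q := q) h₂ c₂ hc₂ (comp T₁ T₂ f₁ f₂ q).pos Sum.inr rfl (fun _ => rfl)
  rw [← e1, ← e2]
  show ∑ v : Option (T₁.V ⊕ T₂.V), _ = _
  rw [Fintype.sum_option, Fintype.sum_sum_type]
  simp only [comp, Option.elim_none, Option.elim_some, Sum.elim_inl, Sum.elim_inr, zero_add]

end len

/-- The tree with one leaf. -/
def single (p : E) : FT E Unit where
  V := Unit
  fin := inferInstance
  par := fun _ => none
  dep := fun _ => 0
  lab := fun _ => some ()
  pos := fun _ => p
  top := ()

lemma single_ok (p : E) : (single p).OK (fun _ => p) where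
  par_top := rfl
  top_of := fun _ _ => rfl
  dep_lt := fun _ _ h => absurd h (by simp [single])
  lab_ex := fun _ => ⟨(), rfl⟩
  lab_inj := fun _ _ _ _ _ => rfl
  leaf := fun _ _ _ _ h => absurd h (by simp [single])
  two := fun _ h => absurd h (by simp [single])
  pos_lab := fun _ _ _ => rfl
  pos_ne := fun _ _ h => absurd h (by simp [single])

lemma single_W [PseudoMetricSpace E] (p : E) : (single p).W = 0 := by
  simp [W, single]

end FT

end Pool.Agent.E8helper35.Low
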