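import Pool.Agent.E8helper35.Steiner.Exchange

/-!
# Straight drawings of minimal length

If the sum of the lengths of the edges of a connected graph in a straight drawing is at most the
length of all compact connected sets which contain the vertices, then the drawing has no crossings.
-/

set_option autoImplicit false

namespace Pool.Agent.E8helper35.Low

open Finset Metric MeasureTheory MeasureTheory.Measure Pool.Agent.E8helper35.Steiner

variable {E : Type} [NormedAddCommGroup E] [NormedSpace ℝ E] [MeasurableSpace E] [BorelSpace E]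
  {V : Type} [Fintype V] {G : SimpleGraph V} {x : V → E}

open Classical in
/-- The edges. -/
noncomputable def edges (G : SimpleGraph V) : Finset (Sym2 V) :=
  univ.filter fun e => e ∈ G.edgeSet

lemma mem_edges {e : Sym2 V} : e ∈ edges G ↔ e ∈ G.edgeSet := by simp [edges]

/-- The total length of a drawing. -/
noncomputable def tot (G : SimpleGraph V) (x : V → E) : ENNReal :=
  ∑ e ∈ edges G, μH[1] (seg x e)

/-- The drawing is as short as possible. -/
def Short (G : SimpleGraph V) (x : V → E) : Prop :=
  ∀ S' : Set E, IsCompact S' → IsConnected S' → Set.range x ⊆ S' → tot G x ≤ μH[1] S'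

lemma exch_one (hG : G.Connected) (hmin : Short G x)
    {u v w z : V} (huv : G.Adj u v) (hwz : G.Adj w z) (hne : s(w, z) ≠ s(u, v)) {q q' : E}
    (hq : q ∈ segment ℝ (x u) (x v)) (hq' : q' ∈ segment ℝ (x w) (x z))
    (hreach : (G.deleteEdges {s(u, v)}).Reachable u w) : dist (x u) q ≤ dist q q' := by
  classical
  have : NullSingletonClass (μH[1] : Measure E) := nullSingletonClass_hausdorff E one_pos
  let F : Finset (Sym2 V) := edges G
  let F' : Finset (Sym2 V) := F.erase s(u, v)
  have hF : ∀ e, e ∈ F ↔ e ∈ G.edgeSet := fun e => mem_edges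
  have huvF : s(u, v) ∈ F := (hF _).2 huv
  set S' : Set E := Set.range x ∪ ((⋃ e ∈ F', seg x e) ∪ (segment ℝ (x v) q ∪ segment ℝ q q'))
    with hS'
  have hrange : Set.range x ⊆ S' := Set.subset_union_left
  have hF'S : ∀ e ∈ F', seg x e ⊆ S' := by
    intro e he
    refine Set.Subset.trans ?_ Set.subset_union_right
    refine Set.Subset.trans ?_ Set.subset_union_left
    exact Set.subset_biUnion_of_mem (u := fun e => seg x e) (mem_coe.2 he)
  have hvq : segment ℝ (x v) q ⊆ S' :=
    Set.Subset.trans Set.subset_union_left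
      (Set.Subset.trans Set.subset_union_right Set.subset_union_right)
  have hqq : segment ℝ q q' ⊆ S' :=
    Set.Subset.trans Set.subset_union_right
      (Set.Subset.trans Set.subset_union_right Set.subset_union_right)
  have hcomp : IsCompact S' := by
    refine (Set.finite_range x).isCompact.union (IsCompact.union ?_ ?_)
    · exact F'.finite_toSet.isCompact_biUnion fun e _ => isCompact_seg x e
    · exact (isCompact_segment' _ _).union (isCompact_segment' _ _)
  have hdel : ∀ e ∈ (G.deleteEdges {s(u, v)}).edgeSet, e ∈ F' := by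
    intro e he
    rw [SimpleGraph.edgeSet_deleteEdges, Set.mem_sdiff, Set.mem_singleton_iff] at he
    exact mem_erase.2 ⟨he.2, (hF e).2 he.1⟩
  have hjoin : ∀ {a b : V}, (G.deleteEdges {s(u, v)}).Reachable a b → JoinedIn S' (x a) (x b) :=
    fun hab => joined_of_reachable (fun e he => hF'S e (hdel e he))
      (fun v => hrange ⟨v, rfl⟩) hab
  have hwzF' : s(w, z) ∈ F' := mem_erase.2 ⟨hne, (hF _).2 hwz⟩
  have hwq' : JoinedIn S' (x w) q' := joined_seg (hF'S _ hwzF') mem_seg_left hq'
  have hqq' : JoinedIn S' q q' :=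
    joined_segment hqq (left_mem_segment ℝ _ _) (right_mem_segment ℝ _ _)
  have hall : ∀ a, JoinedIn S' (x a) q' := by
    intro a
    rcases reachable_or hG (u := u) (v := v) a with ha | ha
    · exact ((hjoin ha).symm.trans (hjoin hreach)).trans hwq'
    · exact ((hjoin ha).symm.trans (joined_segment hvq (left_mem_segment ℝ _ _)
        (right_mem_segment ℝ _ _))).trans hqq'
  have hconn : IsConnected S' := by
    refine IsPathConnected.isConnected ⟨q', hqq (right_mem_segment ℝ _ _), ?_⟩
    intro y hy
    rw [hS'] at hy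
    rcases hy with ⟨a, rfl⟩ | hy | hy | hy
    · exact (hall a).symm
    · obtain ⟨e, he, hye⟩ := Set.mem_iUnion₂.1 hy
      obtain ⟨a, ha⟩ : ∃ a, x a ∈ seg x e := by
        induction e using Sym2.ind with
        | _ a b => exact ⟨a, mem_seg_left⟩
      exact (hall a).symm.trans (joined_seg (hF'S e he) ha hye)
    · exact hqq'.symm.trans (joined_segment hvq (right_mem_segment ℝ _ _) hy)
    · exact joined_segment hqq (right_mem_segment ℝ _ _) hy
  have h1 := hmin S' hcomp hconn hrange
  have h3 : tot G x = ∑ e ∈ F', μH[1] (seg x e) + edist (x u) (x v) := by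
    rw [tot, ← sum_erase_add _ _ huvF, hausdorff_seg]
  have h4 : μH[1] S' ≤ ∑ e ∈ F', μH[1] (seg x e) + (edist (x v) q + edist q q') := by
    rw [hS']
    refine (measure_union_le _ _).trans ?_
    rw [(Set.finite_range x).measure_zero, zero_add]
    refine (measure_union_le _ _).trans (add_le_add (measure_biUnion_finset_le _ _) ?_)
    refine (measure_union_le _ _).trans ?_
    rw [hausdorffMeasure_segment, hausdorffMeasure_segment]
  have h5 : ∑ e ∈ F', μH[1] (seg x e) ≠ ⊤ :=
    ENNReal.sum_ne_top.2 fun e _ => hausdorff_seg_ne_top x e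
  have h6 : edist (x u) (x v) ≤ edist (x v) q + edist q q' := by
    rw [h3] at h1
    exact (ENNReal.add_le_add_iff_left h5).1 (h1.trans h4)
  rw [edist_dist, edist_dist, edist_dist, ← ENNReal.ofReal_add dist_nonneg dist_nonneg,
    ENNReal.ofReal_le_ofReal_iff (by positivity)] at h6
  have h7 := dist_add_dist_of_mem_segment hq
  rw [dist_comm q (x v)] at h7
  linarith

theorem exch (hG : G.Connected) (hmin : Short G x) :
    ∀ u v, G.Adj u v → ∀ e ∈ G.edgeSet, e ≠ s(u, v) → ∀ q ∈ segment ℝ (x u) (x v),
      ∀ q' ∈ seg x e, min (dist q (x u)) (dist q (x v)) ≤ dist q q' := by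
  intro u v huv e he hne q hq q' hq'
  induction e using Sym2.ind with
  | _ w z =>
    rcases reachable_or hG (u := u) (v := v) w with h | h
    · refine (min_le_left _ _).trans ?_
      rw [dist_comm q (x u)]
      exact exch_one hG hmin huv he hne hq hq' h
    · refine (min_le_right _ _).trans ?_
      rw [dist_comm q (x v)]
      refine exch_one hG hmin huv.symm he ?_ (by rwa [segment_symm]) hq' ?_
      · rwa [Sym2.eq_swap (a := v)]
      · rwa [Sym2.eq_swap (a := v)]

/-- Vertices at the same point. -/
lemma short_inj_aux (hG : G.Connected) (hmin : Short G x) {u u' v : V} (huu : G.Adj u u')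
    (hpos : x u ≠ x u') (hv : (G.deleteEdges {s(u, u')}).Reachable u' v) : x u ≠ x v := by
  classical
  intro hxv
  have : NullSingletonClass (μH[1] : Measure E) := nullSingletonClass_hausdorff E one_pos
  let F : Finset (Sym2 V) := edges G
  let F' : Finset (Sym2 V) := F.erase s(u, u')
  have hF : ∀ e, e ∈ F ↔ e ∈ G.edgeSet := fun e => mem_edges
  have huvF : s(u, u') ∈ F := (hF _).2 huu
  set S' : Set E := Set.range x ∪ (⋃ e ∈ F', seg x e) with hS'
  have hrange : Set.range x ⊆ S' := Set.subset_union_left
  have hF'S : ∀ e ∈ F', seg x e ⊆ S' := by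
    intro e he
    refine Set.Subset.trans ?_ Set.subset_union_right
    exact Set.subset_biUnion_of_mem (u := fun e => seg x e) (mem_coe.2 he)
  have hcomp : IsCompact S' :=
    (Set.finite_range x).isCompact.union
      (F'.finite_toSet.isCompact_biUnion fun e _ => isCompact_seg x e)
  have hdel : ∀ e ∈ (G.deleteEdges {s(u, u')}).edgeSet, e ∈ F' := by
    intro e he
    rw [SimpleGraph.edgeSet_deleteEdges, Set.mem_sdiff, Set.mem_singleton_iff] at he
    exact mem_erase.2 ⟨he.2, (hF e).2 he.1⟩
  have hjoin : ∀ {a b : V}, (G.deleteEdges {s(u, u')}).Reachable a b → JoinedIn S' (x a) (x b) :=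
    fun hab => joined_of_reachable (fun e he => hF'S e (hdel e he))
      (fun v => hrange ⟨v, rfl⟩) hab
  have hall : ∀ a, JoinedIn S' (x a) (x u) := by
    intro a
    rcases reachable_or hG (u := u) (v := u') a with ha | ha
    · exact (hjoin ha).symm
    · rw [hxv]
      exact (hjoin ha).symm.trans (hjoin hv)
  have hconn : IsConnected S' := by
    refine IsPathConnected.isConnected ⟨x u, hrange ⟨u, rfl⟩, ?_⟩
    intro y hy
    rw [hS'] at hy
    rcases hy with ⟨a, rfl⟩ | hy
    · exact (hall a).symm
    · obtain ⟨e, he, hye⟩ := Set.mem_iUnion₂.1 hy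
      obtain ⟨a, ha⟩ : ∃ a, x a ∈ seg x e := by
        induction e using Sym2.ind with
        | _ a b => exact ⟨a, mem_seg_left⟩
      exact (hall a).symm.trans (joined_seg (hF'S e he) ha hye)
  have h1 := hmin S' hcomp hconn hrange
  have h3 : tot G x = ∑ e ∈ F', μH[1] (seg x e) + edist (x u) (x u') := by
    rw [tot, ← sum_erase_add _ _ huvF, hausdorff_seg]
  have h4 : μH[1] S' ≤ ∑ e ∈ F', μH[1] (seg x e) + 0 := by
    rw [hS', add_zero]
    refine (measure_union_le _ _).trans ?_
    rw [(Set.finite_range x).measure_zero, zero_add]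
    exact measure_biUnion_finset_le _ _
  have h5 : ∑ e ∈ F', μH[1] (seg x e) ≠ ⊤ :=
    ENNReal.sum_ne_top.2 fun e _ => hausdorff_seg_ne_top x e
  have h6 : edist (x u) (x u') ≤ 0 := by
    rw [h3] at h1
    exact (ENNReal.add_le_add_iff_left h5).1 (h1.trans h4)
  exact hpos (edist_eq_zero.1 (nonpos_iff_eq_zero.1 h6))

theorem short_inj (hG : G.Connected) (hmin : Short G x) (hpos : ∀ u v, G.Adj u v → x u ≠ x v) :
    Function.Injective x := by
  classical
  intro u v huv
  by_contra hne
  obtain ⟨p, hp⟩ := (hG.preconnected u v).exists_isPath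
  cases p with
  | nil => exact hne rfl
  | @cons _ u' _ hadj p =>
    rw [SimpleGraph.Walk.cons_isPath_iff] at hp
    refine short_inj_aux hG hmin hadj (hpos _ _ hadj) ?_ huv
    refine ⟨p.toDeleteEdges _ ?_⟩
    intro e he hes
    rw [Set.mem_singleton_iff] at hes
    rw [hes] at he
    exact hp.2 (p.fst_mem_support_of_mem_edges he)

/-- Two edges meet in common endpoints only. -/
theorem short_disj (hG : G.Connected) (hmin : Short G x) (hinj : Function.Injective x)
    {u v u' v' : V} (huv : G.Adj u v) (huv' : G.Adj u' v') (hne : s(u, v) ≠ s(u', v')) :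
    segment ℝ (x u) (x v) ∩ segment ℝ (x u') (x v') ⊆ x '' ({u, v} ∩ {u', v'}) := by
  rintro q ⟨hq, hq'⟩
  have h1 := exch hG hmin u v huv s(u', v') huv' hne.symm q hq q hq'
  have h2 := exch hG hmin u' v' huv' s(u, v) huv hne q hq' q hq
  rw [dist_self, min_le_iff] at h1 h2
  have h3 : q = x u ∨ q = x v := h1.imp (fun h => dist_le_zero.1 h) fun h => dist_le_zero.1 h
  have h4 : q = x u' ∨ q = x v' := h2.imp (fun h => dist_le_zero.1 h) fun h => dist_le_zero.1 h
  obtain ⟨w, hw, hqw⟩ : ∃ w ∈ ({u, v} : Set V), q = x w := by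
    rcases h3 with h | h
    · exact ⟨u, by simp, h⟩
    · exact ⟨v, by simp, h⟩
  obtain ⟨w', hw', hqw'⟩ : ∃ w ∈ ({u', v'} : Set V), q = x w := by
    rcases h4 with h | h
    · exact ⟨u', by simp, h⟩
    · exact ⟨v', by simp, h⟩
  have : w = w' := hinj (hqw.symm.trans hqw')
  exact ⟨w, ⟨hw, this ▸ hw'⟩, hqw.symm⟩

/-- The union of the edges. -/
def body (G : SimpleGraph V) (x : V → E) : Set E :=
  ⋃ (u : V) (v : V) (_ : G.Adj u v), segment ℝ (x u) (x v)

lemma seg_sub_body {e : Sym2 V} (he : e ∈ G.edgeSet) : seg x e ⊆ body G x := by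
  induction e using Sym2.ind with
  | _ u v =>
    intro q hq
    exact Set.mem_iUnion₂.2 ⟨u, v, Set.mem_iUnion.2 ⟨he, hq⟩⟩

lemma body_eq : body G x = ⋃ e ∈ edges G, seg x e := by
  ext q
  simp only [body, Set.mem_iUnion, exists_prop, mem_edges]
  constructor
  · rintro ⟨u, v, huv, hq⟩
    exact ⟨s(u, v), huv, hq⟩
  · rintro ⟨e, he, hq⟩
    induction e using Sym2.ind with
    | _ u v => exact ⟨u, v, he, hq⟩

lemma body_compact : IsCompact (body G x) := by
  rw [body_eq]
  exact (edges G).finite_toSet.isCompact_biUnion fun e _ => isCompact_seg x e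

lemma body_measure : μH[1] (body G x) ≤ tot G x := by
  rw [body_eq]
  exact measure_biUnion_finset_le _ _

lemma body_mem (hnbr : ∀ v, ∃ w, G.Adj v w) (v : V) : x v ∈ body G x := by
  obtain ⟨w, hw⟩ := hnbr v
  exact seg_sub_body (x := x) (e := s(v, w)) hw mem_seg_left

lemma body_connected (hG : G.Connected) (hnbr : ∀ v, ∃ w, G.Adj v w) : IsConnected (body G x) := by
  obtain ⟨v₀⟩ := hG.nonempty
  refine IsPathConnected.isConnected ⟨x v₀, body_mem hnbr v₀, ?_⟩
  intro y hy
  rw [body_eq] at hy
  obtain ⟨e, he, hye⟩ := Set.mem_iUnion₂.1 hy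
  obtain ⟨a, ha⟩ : ∃ a, x a ∈ seg x e := by
    induction e using Sym2.ind with
    | _ a b => exact ⟨a, mem_seg_left⟩
  exact (joined_of_reachable (fun e he => seg_sub_body he) (body_mem hnbr)
    (hG.preconnected v₀ a)).trans (joined_seg (seg_sub_body (mem_edges.1 he)) ha hye)

end Pool.Agent.E8helper35.Low
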