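import Pool.Agent.E8helper35.Low.BT
import Pool.Agent.R154.Steiner.Net

/-!
# From compact connected sets to binary trees
-/

set_option autoImplicit false

namespace Pool.Agent.E8helper35.Low

open Finset Relation MeasureTheory MeasureTheory.Measure

variable {ι E : Type}

/-- Two points are connected by the edges of `F`. -/
def Lk (F : Finset (E × E)) : E → E → Prop := EqvGen fun x y => (x, y) ∈ F

lemma Lk.mono {F F' : Finset (E × E)} (h : F ⊆ F') {x y : E} (hxy : Lk F x y) : Lk F' x y := by
  induction hxy with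
  | rel x y hab => exact EqvGen.rel _ _ (h hab)
  | refl x => exact EqvGen.refl _
  | symm x y _ ih => exact EqvGen.symm _ _ ih
  | trans x y z _ _ ih1 ih2 => exact EqvGen.trans _ _ _ ih1 ih2

/-- If `C` is closed under the edges of `F` then connected points are both in `C` or both not. -/
lemma Lk.closed {F : Finset (E × E)} (C : E → Prop)
    (hC : ∀ x y, (x, y) ∈ F → (C x ↔ C y)) {x y : E} (h : Lk F x y) : C x ↔ C y := by
  induction h with
  | rel x y h => exact hC x y h
  | refl x => exact Iff.rfl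
  | symm x y _ ih => exact ih.symm
  | trans x y z _ _ ih1 ih2 => exact ih1.trans ih2

section

variable [PseudoMetricSpace E]

lemma trivial_bt (a : ι → E) (p : E) (I : Finset ι) (hI : I.Nonempty) (h : ∀ i ∈ I, a i = p) :
    ∃ t : BT ι E, t.leaves.Nodup ∧ (∀ i, i ∈ t.leaves ↔ i ∈ I) ∧ t.len a p = 0 := by
  classical
  induction hI using Finset.Nonempty.cons_induction with
  | singleton i =>
    refine ⟨.leaf i, by simp [BT.leaves], by simp [BT.leaves], ?_⟩
    rw [BT.len, h i (by simp), dist_self]
  | cons i I hi hI ih =>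
    obtain ⟨t, h1, h2, h3⟩ := ih fun j hj => h j (by simp [hj])
    refine ⟨.node p (.leaf i) t, ?_, ?_, ?_⟩
    · simp only [BT.leaves, List.singleton_append, List.nodup_cons]
      exact ⟨fun hc => hi ((h2 i).1 hc), h1⟩
    · intro j
      simp [BT.leaves, h2]
    · rw [BT.len, BT.len, h i (by simp), dist_self, h3]
      norm_num

variable [DecidableEq E]

lemma net_bt_aux (a : ι → E) (n : ℕ) : ∀ (F : Finset (E × E)), F.card = n → ∀ (p : E)
    (I : Finset ι), I.Nonempty → (∀ i ∈ I, Lk F p (a i)) →
    ∃ t : BT ι E, t.leaves.Nodup ∧ (∀ i, i ∈ t.leaves ↔ i ∈ I) ∧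
      t.len a p ≤ ∑ e ∈ F, dist e.1 e.2 := by
  classical
  induction n using Nat.strong_induction_on with
  | _ n ih =>
    intro F hF p I hI hL
    by_cases hall : ∀ i ∈ I, a i = p
    · obtain ⟨t, h1, h2, h3⟩ := trivial_bt a p I hI hall
      exact ⟨t, h1, h2, by rw [h3]; exact sum_nonneg fun _ _ => dist_nonneg⟩
    push Not at hall
    obtain ⟨i₀, hi₀, hne⟩ := hall
    -- an edge at `p`
    obtain ⟨e, heF, y, hye, hyp⟩ : ∃ e ∈ F, ∃ y, (e = (p, y) ∨ e = (y, p)) ∧ y ≠ p := by
      by_contra hcon
      push Not at hcon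
      have := (hL i₀ hi₀).closed (fun x => x = p) (by
        intro x y hxy
        constructor
        · rintro rfl
          exact hcon _ hxy y (Or.inl rfl)
        · rintro rfl
          exact hcon _ hxy x (Or.inr rfl))
      exact hne (this.1 rfl)
    have hde : dist e.1 e.2 = dist p y := by
      rcases hye with rfl | rfl
      · rfl
      · exact dist_comm _ _
    set F' := F.erase e with hF'
    have hF'card : F'.card < n := by
      rw [hF', card_erase_of_mem heF, hF]
      have := card_pos.2 ⟨e, heF⟩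
      omega
    have hsum : ∑ e ∈ F, dist e.1 e.2 = ∑ e ∈ F', dist e.1 e.2 + dist p y := by
      rw [← sum_erase_add _ _ heF, hde]
    -- the component of `p`
    have hor : ∀ i ∈ I, Lk F' p (a i) ∨ Lk F' y (a i) := by
      intro i hi
      refine ((hL i hi).closed (fun x => Lk F' p x ∨ Lk F' y x) ?_).1 (Or.inl (EqvGen.refl p))
      intro x z hxz
      by_cases hxe : (x, z) = e
      · have hx : Lk F' p x ∨ Lk F' y x := by
          rcases hye with h | h
          · rw [h] at hxe
            left; rw [(Prod.mk.inj hxe).1]; exact EqvGen.refl _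
          · rw [h] at hxe
            right; rw [(Prod.mk.inj hxe).1]; exact EqvGen.refl _
        have hz : Lk F' p z ∨ Lk F' y z := by
          rcases hye with h | h
          · rw [h] at hxe
            right; rw [(Prod.mk.inj hxe).2]; exact EqvGen.refl _
          · rw [h] at hxe
            left; rw [(Prod.mk.inj hxe).2]; exact EqvGen.refl _
        exact ⟨fun _ => hz, fun _ => hx⟩
      · have hmem : (x, z) ∈ F' := mem_erase.2 ⟨hxe, hxz⟩
        constructor
        · rintro (h | h)
          · exact Or.inl (EqvGen.trans _ _ _ h (EqvGen.rel _ _ hmem))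
          · exact Or.inr (EqvGen.trans _ _ _ h (EqvGen.rel _ _ hmem))
        · rintro (h | h)
          · exact Or.inl (EqvGen.trans _ _ _ h (EqvGen.symm _ _ (EqvGen.rel _ _ hmem)))
          · exact Or.inr (EqvGen.trans _ _ _ h (EqvGen.symm _ _ (EqvGen.rel _ _ hmem)))
    by_cases hyC : Lk F' p y
    · obtain ⟨t, h1, h2, h3⟩ := ih F'.card hF'card F' rfl p I hI (by
        intro i hi
        rcases hor i hi with h | h
        · exact h
        · exact EqvGen.trans _ _ _ hyC h)
      refine ⟨t, h1, h2, h3.trans ?_⟩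
      rw [hsum]
      linarith [dist_nonneg (x := p) (y := y)]
    let F₁ : Finset (E × E) := F'.filter fun e => Lk F' p e.1
    let F₂ : Finset (E × E) := F'.filter fun e => ¬ Lk F' p e.1
    have hF12 : ∑ e ∈ F₁, dist e.1 e.2 + ∑ e ∈ F₂, dist e.1 e.2 = ∑ e ∈ F', dist e.1 e.2 :=
      sum_filter_add_sum_filter_not _ _ _
    have hF₁ : ∀ x, Lk F' p x → Lk F₁ p x := by
      intro x hx
      have := hx.closed (fun z => Lk F' p z ↔ Lk F₁ p z) ?_
      · exact (this.1 ⟨fun _ => EqvGen.refl p, fun _ => EqvGen.refl p⟩).1 hx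
      · intro z w hzw
        have hzw' : Lk F' z w := EqvGen.rel _ _ hzw
        constructor
        · intro h
          constructor
          · intro h1
            have h2 : Lk F' p z := EqvGen.trans _ _ _ h1 (EqvGen.symm _ _ hzw')
            exact EqvGen.trans _ _ _ (h.1 h2) (EqvGen.rel _ _ (mem_filter.2 ⟨hzw, h2⟩))
          · intro h1
            exact h1.mono (filter_subset _ _)
        · intro h
          constructor
          · intro h1
            have h2 : Lk F' p w := EqvGen.trans _ _ _ h1 hzw'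
            exact EqvGen.trans _ _ _ (h.1 h2)
              (EqvGen.symm _ _ (EqvGen.rel _ _ (mem_filter.2 ⟨hzw, h1⟩)))
          · intro h1
            exact h1.mono (filter_subset _ _)
    have hF₂ : ∀ x, Lk F' y x → Lk F₂ y x := by
      intro x hx
      have := hx.closed (fun z => Lk F₂ y z ∧ ¬ Lk F' p z) ?_
      · exact (this.1 ⟨EqvGen.refl y, hyC⟩).1
      · intro z w hzw
        have hzw' : Lk F' z w := EqvGen.rel _ _ hzw
        constructor
        · rintro ⟨h1, h2⟩
          refine ⟨EqvGen.trans _ _ _ h1 (EqvGen.rel _ _ (mem_filter.2 ⟨hzw, h2⟩)), fun h3 => h2 ?_⟩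
          exact EqvGen.trans _ _ _ h3 (EqvGen.symm _ _ hzw')
        · rintro ⟨h1, h2⟩
          have h3 : ¬ Lk F' p z := fun h3 => h2 (EqvGen.trans _ _ _ h3 hzw')
          exact ⟨EqvGen.trans _ _ _ h1 (EqvGen.symm _ _ (EqvGen.rel _ _
            (mem_filter.2 ⟨hzw, h3⟩))), h3⟩
    let I₁ : Finset ι := I.filter fun i => Lk F' p (a i)
    let I₂ : Finset ι := I.filter fun i => ¬ Lk F' p (a i)
    have hI₁ : ∀ i ∈ I₁, Lk F₁ p (a i) := fun i hi => hF₁ _ (mem_filter.1 hi).2
    have hI₂ : ∀ i ∈ I₂, Lk F₂ y (a i) := by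
      intro i hi
      obtain ⟨h1, h2⟩ := mem_filter.1 hi
      exact hF₂ _ ((hor i h1).resolve_left h2)
    have hc₁ : F₁.card < n := lt_of_le_of_lt (card_le_card (filter_subset _ _)) hF'card
    have hc₂ : F₂.card < n := lt_of_le_of_lt (card_le_card (filter_subset _ _)) hF'card
    have hn₁ : 0 ≤ ∑ e ∈ F₁, dist e.1 e.2 := sum_nonneg fun _ _ => dist_nonneg
    have hn₂ : 0 ≤ ∑ e ∈ F₂, dist e.1 e.2 := sum_nonneg fun _ _ => dist_nonneg
    have hpy : 0 ≤ dist p y := dist_nonneg
    rcases I₁.eq_empty_or_nonempty with h₁ | h₁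
    · have hI2 : I₂ = I := by
        refine filter_true_of_mem fun i hi hc => ?_
        have : i ∈ I₁ := mem_filter.2 ⟨hi, hc⟩
        rw [h₁] at this
        simp at this
      obtain ⟨t, h2, h3, h4⟩ := ih F₂.card hc₂ F₂ rfl y I₂ (by rw [hI2]; exact hI) hI₂
      refine ⟨t, h2, by rw [← hI2]; exact h3, ?_⟩
      have := BT.len_tri a t p y
      linarith
    rcases I₂.eq_empty_or_nonempty with h₂ | h₂
    · have hI1 : I₁ = I := by
        refine filter_true_of_mem fun i hi => ?_
        by_contra hc
        have : i ∈ I₂ := mem_filter.2 ⟨hi, hc⟩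
        rw [h₂] at this
        simp at this
      obtain ⟨t, h2, h3, h4⟩ := ih F₁.card hc₁ F₁ rfl p I₁ (by rw [hI1]; exact hI) hI₁
      exact ⟨t, h2, by rw [← hI1]; exact h3, by linarith⟩
    obtain ⟨t₁, h3, h4, h5⟩ := ih F₁.card hc₁ F₁ rfl p I₁ h₁ hI₁
    obtain ⟨t₂, h6, h7, h8⟩ := ih F₂.card hc₂ F₂ rfl y I₂ h₂ hI₂
    refine ⟨.node p t₁ t₂, ?_, ?_, ?_⟩
    · rw [BT.leaves, List.nodup_append']
      refine ⟨h3, h6, ?_⟩
      intro i hi hi'
      exact (mem_filter.1 ((h7 i).1 hi')).2 (mem_filter.1 ((h4 i).1 hi)).2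
    · intro i
      rw [BT.leaves, List.mem_append, h4, h7, ← mem_union]
      simp only [I₁, I₂, filter_union_filter_not_eq]
    · have := BT.len_tri a t₂ p y
      rw [BT.len, dist_self]
      linarith

end

/-- **Reduction.** A compact connected set of finite length through the points `p` and `a i` is at
least as long as a binary tree with root `p` and leaves `a i`. -/
theorem exists_bt [MetricSpace E] [MeasurableSpace E] [BorelSpace E] [Fintype ι] [Nonempty ι]
    {S : Set E} (hc : IsCompact S) (hconn : IsConnected S) (hfin : μH[1] S ≠ ⊤) (a : ι → E)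
    (ha : ∀ i, a i ∈ S) {p : E} (hp : p ∈ S) :
    ∃ t : BT ι E, t.Full ∧ t.len a p ≤ (μH[1] S).toReal := by
  classical
  let e : Fin (Fintype.card (Option ι)) ≃ Option ι := (Fintype.equivFin (Option ι)).symm
  let b : Option ι → E := fun o => o.elim p a
  have hb : ∀ o, b o ∈ S := by
    rintro (_ | i)
    · exact hp
    · exact ha i
  obtain ⟨y, hy1, hy2, hy3⟩ := Pool.Agent.R154.Steiner.exists_net hc hconn.isPreconnected hfin
    (fun k => b (e k)) (fun k => hb _) p hp
  let F : Finset (E × E) := univ.image fun k => (y (k, false), y (k, true))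
  have hLk : ∀ σ τ, Lk F (y σ) (y τ) := by
    intro σ τ
    induction hy1 σ τ with
    | rel σ τ h =>
      rcases h with h | h
      · rw [h]; exact EqvGen.refl _
      · obtain ⟨k, β⟩ := σ
        obtain ⟨k', β'⟩ := τ
        simp only at h
        subst h
        have hmem : (y (k, false), y (k, true)) ∈ F := mem_image.2 ⟨k, mem_univ _, rfl⟩
        cases β <;> cases β'
        · exact EqvGen.refl _
        · exact EqvGen.rel _ _ hmem
        · exact EqvGen.symm _ _ (EqvGen.rel _ _ hmem)
        · exact EqvGen.refl _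
    | refl σ => exact EqvGen.refl _
    | symm σ τ _ ih => exact EqvGen.symm _ _ ih
    | trans σ τ υ _ _ ih1 ih2 => exact EqvGen.trans _ _ _ ih1 ih2
  have hpt : ∀ o, ∃ σ, y σ = b o := by
    intro o
    obtain ⟨σ, hσ⟩ := hy2 (e.symm o)
    exact ⟨σ, by simpa using hσ⟩
  obtain ⟨t, h1, h2, h3⟩ := net_bt_aux a F.card F rfl p univ univ_nonempty (by
    intro i _
    obtain ⟨σ, hσ⟩ := hpt none
    obtain ⟨τ, hτ⟩ := hpt (some i)
    have := hLk σ τ
    rw [hσ, hτ] at this
    exact this)
  refine ⟨t, ⟨h1, fun i => (h2 i).2 (mem_univ i)⟩, h3.trans (le_trans ?_ hy3)⟩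
  exact sum_image_le_of_nonneg (g := fun k => (y (k, false), y (k, true)))
    (f := fun e : E × E => dist e.1 e.2) (s := univ) fun _ _ => dist_nonneg

end Pool.Agent.E8helper35.Low
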