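import Pool.Agent.E8helper35.Low.Graph
import Pool.Agent.E8helper35.Low.Real
import Pool.Agent.E8helper35.Low.Red

/-!
# Point sets with exponentially many optimal full topologies
-/

set_option autoImplicit false

namespace Pool.Agent.E8helper35.Low

open Finset Metric MeasureTheory MeasureTheory.Measure Pool.Agent.E8helper35.Steiner
open scoped InnerProductSpace

variable {E : Type} [NormedAddCommGroup E] [InnerProductSpace ℝ E] [MeasurableSpace E]
  [BorelSpace E] {ι : Type}

namespace FT

variable {T : FT E ι} {a : ι → E}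

lemma tot_gr (h : T.OK a) (p : E) :
    tot T.gr (T.posr p) = ENNReal.ofReal (T.W + dist (T.pos T.top) p) := by
  classical
  have h1 : edges T.gr = univ.image fun v => s(some v, T.par v) := by
    ext e
    rw [mem_edges, edgeSet_gr h]
    simp
  rw [tot, h1, sum_image (fun v _ w _ hvw => edge_inj h hvw)]
  have h2 : ∀ v, μH[1] (seg (T.posr p) s(some v, T.par v)) =
      ENNReal.ofReal (((T.par v).elim 0 fun w => dist (T.pos v) (T.pos w)) +
        if v = T.top then dist (T.pos T.top) p else 0) := by
    intro v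
    rw [hausdorff_seg, edist_dist]
    congr 1
    by_cases hv : v = T.top
    · subst hv
      rw [h.par_top, if_pos rfl]
      simp [posr]
    · rw [if_neg hv]
      cases hp : T.par v with
      | none => exact absurd (h.top_of v hp) hv
      | some w => simp [posr]
  simp only [h2]
  rw [← ENNReal.ofReal_sum_of_nonneg, sum_add_distrib, sum_ite_eq', if_pos (mem_univ _)]
  · rfl
  · intro v _
    refine add_nonneg ?_ ?_
    · cases T.par v with
      | none => exact le_rfl
      | some w => exact dist_nonneg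
    · split_ifs
      · exact dist_nonneg
      · exact le_rfl

lemma exists_nbr (h : T.OK a) (x : Option T.V) : ∃ y, T.gr.Adj x y := by
  rcases x with _ | v
  · exact ⟨some T.top, (adj_iff h _ _).2 ⟨T.top, Or.inr ⟨rfl, h.par_top.symm⟩⟩⟩
  · exact ⟨T.par v, adj_par h v⟩

/-- A bijection of the vertices with the terminals and the Steiner points. -/
lemma exists_psi [Fintype ι] (h : T.OK a) {n : ℕ} (e : Fin n ≃ Option ι) :
    ∃ ψ : (Fin n ⊕ Fin (n - 2)) ≃ Option T.V, (∀ i, ψ (Sum.inl i) = (e i).map (lf h)) ∧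
      ∀ s, ∃ v, ψ (Sum.inr s) = some v ∧ T.lab v = none := by
  classical
  have hc := card_inner h
  have hn : Fintype.card ι + 1 = n := by
    have := Fintype.card_congr e
    rw [Fintype.card_fin, Fintype.card_option] at this
    exact this.symm
  have hc' : Nat.card {v : T.V // T.lab v = none} = n - 2 := by omega
  let f : Fin (n - 2) ≃ {v : T.V // T.lab v = none} := (Finite.equivFinOfCardEq hc').symm
  let ψ : (Fin n ⊕ Fin (n - 2)) → Option T.V :=
    Sum.elim (fun i => (e i).map (lf h)) fun s => some (f s).1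
  have hlf : Function.Injective (lf h) := by
    intro i j hij
    have := lab_lf h i
    rw [hij, lab_lf h j] at this
    exact (Option.some.inj this).symm
  have hinj : Function.Injective ψ := by
    rintro (i | s) (j | t) hij
    · have h1 : (e i).map (lf h) = (e j).map (lf h) := hij
      rw [e.injective (Option.map_injective hlf h1)]
    · have h1 : (e i).map (lf h) = some (f t).1 := hij
      obtain ⟨k, -, hk⟩ := Option.map_eq_some_iff.1 h1
      have h2 := (f t).2
      rw [← hk, lab_lf h] at h2
      exact absurd h2 (by simp)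
    · have h1 : some (f s).1 = (e j).map (lf h) := hij
      obtain ⟨k, -, hk⟩ := Option.map_eq_some_iff.1 h1.symm
      have h2 := (f s).2
      rw [← hk, lab_lf h] at h2
      exact absurd h2 (by simp)
    · have h1 : some (f s).1 = some (f t).1 := hij
      rw [f.injective (Subtype.ext (Option.some.inj h1))]
  have hsurj : Function.Surjective ψ := by
    rintro (_ | v)
    · exact ⟨Sum.inl (e.symm none), by simp [ψ]⟩
    · cases hv : T.lab v with
      | none => exact ⟨Sum.inr (f.symm ⟨v, hv⟩), by simp [ψ]⟩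
      | some i =>
        refine ⟨Sum.inl (e.symm (some i)), ?_⟩
        simp [ψ, lf_of_lab h hv]
  exact ⟨Equiv.ofBijective ψ ⟨hinj, hsurj⟩, fun _ => rfl, fun s => ⟨(f s).1, rfl, (f s).2⟩⟩

end FT

lemma lb_real [Fintype ι] [Nonempty ι] {a : ι → E} {u : E} {m : ℝ} (hlb : LB u a m) {p : E}
    {S' : Set E} (h1 : IsCompact S') (h2 : IsConnected S') (ha : ∀ i, a i ∈ S') (hp : p ∈ S') :
    ENNReal.ofReal (m + ⟪p, u⟫_ℝ) ≤ μH[1] S' := by
  by_cases hfin : μH[1] S' = ⊤
  · rw [hfin]
    exact le_top
  · obtain ⟨t, ht1, ht2⟩ := exists_bt h1 h2 hfin a ha hp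
    exact ENNReal.ofReal_le_of_le_toReal ((hlb t ht1 p).trans ht2)

lemma ncard_nbr_comap {V W : Type} (G : SimpleGraph W) (ψ : V ≃ W) (v : V) :
    ((G.comap ψ).neighborSet v).ncard = (G.neighborSet (ψ v)).ncard := by
  rw [← Set.ncard_image_of_injective _ ψ.injective]
  congr 1
  ext w
  constructor
  · rintro ⟨z, hz, rfl⟩
    exact hz
  · intro hw
    exact ⟨ψ.symm w, by simpa [SimpleGraph.mem_neighborSet] using hw, by simp⟩

/-- **Point sets with many optimal full topologies.** -/
theorem exists_low {u v : E} (hf : Frame u v) (k r n : ℕ) (hn : n = 10 * k + r + 2) :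
    ∃ (a : Fin n → E) (G : Fin (2 ^ k) → SimpleGraph (Fin n ⊕ Fin (n - 2))),
      Function.Injective a ∧
      (∀ c, (G c).IsTree ∧ (∀ i, ((G c).neighborSet (Sum.inl i)).ncard = 1) ∧
        (∀ s, ((G c).neighborSet (Sum.inr s)).ncard = 3) ∧
        ∃ x : (Fin n ⊕ Fin (n - 2)) → E, Function.Injective x ∧ (∀ i, x (Sum.inl i) = a i) ∧
          (IsCompact (body (G c) x) ∧ IsConnected (body (G c) x) ∧
            Set.range a ⊆ body (G c) x ∧ ∀ S' : Set E, IsCompact S' → IsConnected S' →
              Set.range a ⊆ S' → μH[1] (body (G c) x) ≤ μH[1] S') ∧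
          ∀ u v u' v', (G c).Adj u v → (G c).Adj u' v' → s(u, v) ≠ s(u', v') →
            segment ℝ (x u) (x v) ∩ segment ℝ (x u') (x v') ⊆ x '' ({u, v} ∩ {u', v'})) ∧
      ∀ c c', (∃ φ : G c ≃g G c', ∀ i, φ (Sum.inl i) = Sum.inl i) → c = c' := by
  classical
  obtain ⟨ι, _, _, a, m, hcard, hlb, T, hT, hopt⟩ := hasGad_pow (E := E) k r u v hf
  choose ho s hs using hopt
  obtain ⟨s₀, hs₀⟩ : ∃ s₀, ∀ c, s c < s₀ := by
    obtain ⟨M, hM⟩ := (Set.finite_range s).bddAbove
    exact ⟨M + 1, fun c => by linarith [hM ⟨c, rfl⟩]⟩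
  set p : E := s₀ • u with hp
  have huu : ⟪u, u⟫_ℝ = 1 := by rw [real_inner_self_eq_norm_sq, hf.uu]; norm_num
  have hpu : ⟪p, u⟫_ℝ = s₀ := by rw [hp, inner_smul_left, huu]; simp
  have hcard' : Fintype.card (Fin n) = Fintype.card (Option ι) := by
    rw [Fintype.card_fin, Fintype.card_option, hcard, hn]
  let e : Fin n ≃ Option ι := Fintype.equivOfCardEq hcard'
  have hok : ∀ c, (T c).OK a := fun c => (ho c).ok
  have hψ := fun c => FT.exists_psi (hok c) e
  choose ψ hψ1 hψ2 using hψ
  let a' : Fin n → E := fun i => (e i).elim p a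
  let G : Fin (2 ^ k) → SimpleGraph (Fin n ⊕ Fin (n - 2)) := fun c => (T c).gr.comap (ψ c)
  -- the length of the drawings
  have hlen : ∀ c, tot (T c).gr ((T c).posr p) = ENNReal.ofReal (m + ⟪p, u⟫_ℝ) := by
    intro c
    rw [FT.tot_gr (hok c), (ho c).len, hs c, hpu]
    congr 1
    have h1 : dist (s c • u) p = s₀ - s c := by
      rw [hp, dist_eq_norm, ← sub_smul, norm_smul, hf.uu, mul_one, Real.norm_eq_abs,
        abs_of_neg (by linarith [hs₀ c])]
      ring
    rw [h1, inner_smul_left, huu]
    simp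
  have hposa : ∀ c i, (T c).posr p ((ψ c) (Sum.inl i)) = a' i := by
    intro c i
    rw [hψ1]
    show ((T c).posr p) ((e i).map (FT.lf (hok c))) = (e i).elim p a
    cases e i with
    | none => rfl
    | some j => exact (hok c).pos_lab _ _ (FT.lab_lf (hok c) j)
  have hlow : ∀ S' : Set E, IsCompact S' → IsConnected S' → Set.range a' ⊆ S' →
      ENNReal.ofReal (m + ⟪p, u⟫_ℝ) ≤ μH[1] S' := by
    intro S' h1 h2 h3
    refine lb_real hlb h1 h2 (fun i => h3 ⟨e.symm (some i), ?_⟩) (h3 ⟨e.symm none, ?_⟩)
    · simp [a']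
    · simp [a']
  have hshort : ∀ c, Short (T c).gr ((T c).posr p) := by
    intro c S' h1 h2 h3
    rw [hlen]
    refine hlow S' h1 h2 (Set.Subset.trans ?_ h3)
    rintro _ ⟨i, rfl⟩
    exact ⟨_, hposa c i⟩
  have hpos : ∀ c x y, (T c).gr.Adj x y → (T c).posr p x ≠ (T c).posr p y := by
    have key : ∀ c v, (T c).posr p (some v) ≠ (T c).posr p ((T c).par v) := by
      intro c v
      cases hv : (T c).par v with
      | none =>
        rw [(hok c).top_of v hv]
        show (T c).pos (T c).top ≠ p
        rw [hs c, hp]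
        intro heq
        have h1 : s c = s₀ := by
          have h2 := congrArg (fun z => ⟪z, u⟫_ℝ) heq
          simp only [inner_smul_left, huu, mul_one] at h2
          exact h2
        exact (hs₀ c).ne h1
      | some w => exact (hok c).pos_ne v w hv
    intro c x y hxy
    obtain ⟨v, ⟨rfl, rfl⟩ | ⟨rfl, rfl⟩⟩ := (FT.adj_iff (hok c) x y).1 hxy
    · exact key c v
    · exact (key c v).symm
  have hinj : ∀ c, Function.Injective ((T c).posr p) := fun c =>
    short_inj (FT.gr_connected (hok c)) (hshort c) (hpos c)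
  have hbody : ∀ c, body (G c) ((T c).posr p ∘ ψ c) = body (T c).gr ((T c).posr p) := by
    intro c
    ext q
    simp only [body, Set.mem_iUnion, exists_prop]
    constructor
    · rintro ⟨x, y, hxy, hq⟩
      exact ⟨ψ c x, ψ c y, hxy, hq⟩
    · rintro ⟨x, y, hxy, hq⟩
      refine ⟨(ψ c).symm x, (ψ c).symm y, ?_, ?_⟩
      · simpa [G] using hxy
      · simpa using hq
  have hnbr := fun c => FT.exists_nbr (hok c)
  have h2k : 0 < 2 ^ k := by positivity
  have ha'inj : Function.Injective a' := by
    intro i j hij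
    rw [← hposa ⟨0, h2k⟩ i, ← hposa ⟨0, h2k⟩ j] at hij
    exact Sum.inl_injective ((ψ _).injective (hinj _ hij))
  refine ⟨a', G, ha'inj, ?_, ?_⟩
  · intro c
    let iso : G c ≃g (T c).gr := SimpleGraph.Iso.comap (ψ c) (T c).gr
    refine ⟨iso.isTree_iff.2 (FT.gr_isTree (hok c)), ?_, ?_, (T c).posr p ∘ ψ c,
      (hinj c).comp (ψ c).injective, hposa c, ?_, ?_⟩
    · intro i
      rw [ncard_nbr_comap, hψ1]
      cases e i with
      | none =>
        rw [Option.map_none, FT.nbr_none (hok c), Set.ncard_singleton]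
      | some j =>
        rw [Option.map_some, FT.nbr_leaf (hok c) (FT.lab_lf (hok c) j), Set.ncard_singleton]
    · intro t
      rw [ncard_nbr_comap]
      obtain ⟨v, hv1, hv2⟩ := hψ2 c t
      rw [hv1]
      exact FT.nbr_inner (hok c) hv2
    · rw [hbody]
      refine ⟨body_compact, body_connected (FT.gr_connected (hok c)) (hnbr c), ?_, ?_⟩
      · rintro _ ⟨i, rfl⟩
        rw [← hposa c i]
        exact body_mem (hnbr c) _
      · intro S' h1 h2 h3
        refine body_measure.trans ?_
        rw [hlen]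
        exact hlow S' h1 h2 h3
    · intro x y x' y' hxy hxy' hne q hq
      have hne' : s(ψ c x, ψ c y) ≠ s(ψ c x', ψ c y') := by
        intro hc
        refine hne ?_
        have := congrArg (Sym2.map (ψ c).symm) hc
        simpa using this
      obtain ⟨z, ⟨hz1, hz2⟩, hzq⟩ := short_disj (FT.gr_connected (hok c)) (hshort c) (hinj c)
        (u := ψ c x) (v := ψ c y) (u' := ψ c x') (v' := ψ c y') hxy hxy' hne' hq
      refine ⟨(ψ c).symm z, ⟨?_, ?_⟩, by simpa using hzq⟩
      · simpa [Equiv.symm_apply_eq] using hz1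
      · simpa [Equiv.symm_apply_eq] using hz2
  · rintro c c' ⟨φ, hφ⟩
    refine hT ?_
    funext i j
    by_cases hij : i = j
    · subst hij
      exact propext ⟨fun h => absurd rfl h.1, fun h => absurd rfl h.1⟩
    · show (T c).Sib i j = (T c').Sib i j
      rw [FT.sib_iff (hok c) hij, FT.sib_iff (hok c') hij]
      have key : ∀ c, (∃ y, (T c).gr.Adj (some (FT.lf (hok c) i)) y ∧
          (T c).gr.Adj (some (FT.lf (hok c) j)) y) ↔
          ∃ z, (G c).Adj (Sum.inl (e.symm (some i))) z ∧ (G c).Adj (Sum.inl (e.symm (some j))) z := by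
        intro c
        have hi : ∀ i, ψ c (Sum.inl (e.symm (some i))) = some (FT.lf (hok c) i) := by
          intro i
          rw [hψ1]
          simp
        constructor
        · rintro ⟨y, h1, h2⟩
          refine ⟨(ψ c).symm y, ?_, ?_⟩
          · show (T c).gr.Adj (ψ c _) (ψ c _)
            rw [hi, Equiv.apply_symm_apply]
            exact h1
          · show (T c).gr.Adj (ψ c _) (ψ c _)
            rw [hi, Equiv.apply_symm_apply]
            exact h2
        · rintro ⟨z, h1, h2⟩
          refine ⟨ψ c z, ?_, ?_⟩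
          · have h3 : (T c).gr.Adj (ψ c (Sum.inl (e.symm (some i)))) (ψ c z) := h1
            rwa [hi] at h3
          · have h3 : (T c).gr.Adj (ψ c (Sum.inl (e.symm (some j)))) (ψ c z) := h2
            rwa [hi] at h3
      rw [key c, key c']
      refine propext ⟨?_, ?_⟩
      · rintro ⟨z, h1, h2⟩
        refine ⟨φ z, ?_, ?_⟩
        · rw [← hφ (e.symm (some i))]
          exact φ.map_adj_iff.2 h1
        · rw [← hφ (e.symm (some j))]
          exact φ.map_adj_iff.2 h2
      · rintro ⟨z, h1, h2⟩
        refine ⟨φ.symm z, ?_, ?_⟩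
        · rw [← φ.map_adj_iff, hφ, RelIso.apply_symm_apply]
          exact h1
        · rw [← φ.map_adj_iff, hφ, RelIso.apply_symm_apply]
          exact h2

end Pool.Agent.E8helper35.Low
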