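import Pool.Agent.E8helper35.Low.FT

/-!
# Gadgets
-/

set_option autoImplicit false

namespace Pool.Agent.E8helper35.Low

open scoped InnerProductSpace Topology

variable {E : Type} [NormedAddCommGroup E] [InnerProductSpace ℝ E] {ι ι₁ ι₂ : Type}

/-- An optimal tree: its length is given by the lower bound. -/
structure Opt (T : FT E ι) (u : E) (a : ι → E) (m : ℝ) : Prop where
  ok : T.OK a
  len : T.W = m + ⟪T.pos T.top, u⟫_ℝ

lemma opt_comp {T₁ : FT E ι₁} {T₂ : FT E ι₂} {u₁ u₂ : E} {a₁ : ι₁ → E} {a₂ : ι₂ → E}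
    {m₁ m₂ : ℝ} (h₁ : Opt T₁ u₁ a₁ m₁) (h₂ : Opt T₂ u₂ a₂ m₂) (hu₁ : ‖u₁‖ = 1) (hu₂ : ‖u₂‖ = 1)
    {ε s₁ s₂ : ℝ} (hε : 0 < ε) (hs₁ : 0 < s₁) (hs₂ : 0 < s₂) {q : E}
    (hq₁ : q = -u₁ + ε • T₁.pos T₁.top + s₁ • u₁) (hq₂ : q = -u₂ + ε • T₂.pos T₂.top + s₂ • u₂) :
    Opt (T₁.comp T₂ (fun x => -u₁ + ε • x) (fun x => -u₂ + ε • x) q) (u₁ + u₂)
      (glue u₁ u₂ ε a₁ a₂) (2 + ε * (m₁ + m₂)) := by
  have hd : ∀ (w x y : E), dist (-w + ε • x) (-w + ε • y) = ε * dist x y := by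
    intro w x y
    rw [dist_add_left, dist_smul₀, Real.norm_of_nonneg hε.le]
  have hinj : ∀ w : E, Function.Injective fun x : E => -w + ε • x := by
    intro w x y hxy
    have h1 := hd w x y
    simp only at hxy
    rw [hxy, dist_self] at h1
    have h2 : dist x y = 0 := by
      rcases mul_eq_zero.1 h1.symm with h | h
      · exact absurd h hε.ne'
      · exact h
    exact dist_eq_zero.1 h2
  have e1 : dist (-u₁ + ε • T₁.pos T₁.top) q = s₁ := by
    rw [hq₁, dist_self_add_right, norm_smul, hu₁, mul_one, Real.norm_of_nonneg hs₁.le]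
  have e2 : dist (-u₂ + ε • T₂.pos T₂.top) q = s₂ := by
    rw [hq₂, dist_self_add_right, norm_smul, hu₂, mul_one, Real.norm_of_nonneg hs₂.le]
  constructor
  · refine FT.comp_ok h₁.ok h₂.ok (hinj u₁) (hinj u₂) ?_ ?_ (fun _ => rfl) (fun _ => rfl)
    · exact dist_pos.1 (by rw [e1]; exact hs₁)
    · exact dist_pos.1 (by rw [e2]; exact hs₂)
  · rw [FT.comp_W h₁.ok h₂.ok ε ε (hd u₁) (hd u₂), h₁.len, h₂.len]
    simp only [e1, e2]
    have h3 : (T₁.comp T₂ (fun x => -u₁ + ε • x) (fun x => -u₂ + ε • x) q).pos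
        (T₁.comp T₂ (fun x => -u₁ + ε • x) (fun x => -u₂ + ε • x) q).top = q := rfl
    rw [h3, inner_add_right]
    have h4 : ⟪q, u₁⟫_ℝ = -1 + ε * ⟪T₁.pos T₁.top, u₁⟫_ℝ + s₁ := by
      rw [hq₁, inner_add_left, inner_add_left, inner_neg_left, inner_smul_left, inner_smul_left,
        real_inner_self_eq_norm_sq, hu₁]
      simp
    have h5 : ⟪q, u₂⟫_ℝ = -1 + ε * ⟪T₂.pos T₂.top, u₂⟫_ℝ + s₂ := by
      rw [hq₂, inner_add_left, inner_add_left, inner_neg_left, inner_smul_left, inner_smul_left,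
        real_inner_self_eq_norm_sq, hu₂]
      simp
    rw [h4, h5]
    ring

/-- A gadget with root direction `u`: a lower bound for all trees and `K` optimal trees with
tops on the axis which differ in their sibling relations. -/
def Gad (u : E) (a : ι → E) (m : ℝ) (K : ℕ) : Prop :=
  LB u a m ∧ ∃ T : Fin K → FT E ι, Function.Injective (fun c => (T c).Sib) ∧
    ∀ c, Opt (T c) u a m ∧ ∃ s : ℝ, (T c).pos (T c).top = s • u

/-- There are gadgets with `N` points and `K` optimal trees for all directions. -/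
def HasGad (E : Type) [NormedAddCommGroup E] [InnerProductSpace ℝ E] (N K : ℕ) : Prop :=
  ∀ u v : E, Frame u v → ∃ (ι : Type) (_ : Fintype ι) (_ : Nonempty ι) (a : ι → E) (m : ℝ),
    Fintype.card ι = N ∧ Gad u a m K

lemma hasGad_one : HasGad E 1 1 := by
  intro u v h
  refine ⟨Unit, inferInstance, inferInstance, fun _ => 0, 0, rfl, lb_leaf h.uu,
    fun _ => FT.single 0, fun _ _ _ => Subsingleton.elim _ _, fun _ => ⟨⟨FT.single_ok 0, ?_⟩, 0, ?_⟩⟩
  · rw [FT.single_W]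
    simp [FT.single]
  · simp [FT.single]

lemma Frame.split {u v : E} (h : Frame u v) :
    Frame v (-(u - v)) ∧ Frame (u - v) (-v) ∧ ⟪v, u - v⟫_ℝ = -(1 / 2) := by
  have huu : ⟪u, u⟫_ℝ = 1 := by rw [real_inner_self_eq_norm_sq, h.uu]; norm_num
  have hvv : ⟪v, v⟫_ℝ = 1 := by rw [real_inner_self_eq_norm_sq, h.vv]; norm_num
  have hvu : ⟪v, u⟫_ℝ = 1 / 2 := by rw [real_inner_comm]; exact h.uv
  have h1 : ‖u - v‖ = 1 := by
    have : ‖u - v‖ ^ 2 = 1 := by
      rw [← real_inner_self_eq_norm_sq, inner_sub_left, inner_sub_right, inner_sub_right, huu, hvv,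
        h.uv, hvu]
      norm_num
    have h0 := norm_nonneg (u - v)
    nlinarith
  refine ⟨⟨h.vv, by rw [norm_neg, h1], ?_⟩, ⟨h1, by rw [norm_neg, h.vv], ?_⟩, ?_⟩
  · rw [inner_neg_right, inner_sub_right, hvu, hvv]; norm_num
  · rw [inner_neg_right, inner_sub_left, h.uv, hvv]; norm_num
  · rw [inner_sub_right, hvu, hvv]; norm_num

lemma ev_small (c : ℝ) {δ : ℝ} (hδ : 0 < δ) : ∀ᶠ ε in 𝓝[>] (0 : ℝ), ε * c < δ := by
  have h1 : Filter.Tendsto (fun ε : ℝ => ε * c) (𝓝[>] 0) (𝓝 0) := by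
    have : Filter.Tendsto (fun ε : ℝ => ε * c) (𝓝 0) (𝓝 (0 * c)) :=
      (continuous_mul_const c).tendsto 0
    rw [zero_mul] at this
    exact this.mono_left nhdsWithin_le_nhds
  exact h1.eventually_lt_const hδ

lemma sqrt3_gt : (0 : ℝ) < Real.sqrt 3 - 3 / 2 := by
  have : (3 / 2 : ℝ) < Real.sqrt 3 := by
    rw [Real.lt_sqrt (by norm_num)]
    norm_num
  linarith

theorem hasGad_mul {N₁ K₁ N₂ K₂ : ℕ} (h₁ : HasGad E N₁ K₁) (h₂ : HasGad E N₂ K₂) :
    HasGad E (N₁ + N₂) (K₁ * K₂) := by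
  intro u v h
  obtain ⟨hf₁, hf₂, h12⟩ := h.split
  obtain ⟨ι₁, _, _, a₁, m₁, hc₁, hlb₁, T₁, hT₁, hopt₁⟩ := h₁ _ _ hf₁
  obtain ⟨ι₂, _, _, a₂, m₂, hc₂, hlb₂, T₂, hT₂, hopt₂⟩ := h₂ _ _ hf₂
  choose ho₁ s₁ hs₁ using hopt₁
  choose ho₂ s₂ hs₂ using hopt₂
  have hev : ∀ᶠ ε in 𝓝[>] (0 : ℝ), 0 < ε ∧
      ε * (m₁ + m₂ + (∑ i, ‖a₁ i‖ + ∑ j, ‖a₂ j‖)) < Real.sqrt 3 - 3 / 2 ∧
      (∀ c, ε * s₁ c < 1) ∧ ∀ c, ε * s₂ c < 1 :=
    (eventually_mem_nhdsWithin).and ((ev_small _ sqrt3_gt).and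
      ((Filter.eventually_all.2 fun c => ev_small _ one_pos).and
        (Filter.eventually_all.2 fun c => ev_small _ one_pos)))
  obtain ⟨ε, hε, hε1, hε2, hε3⟩ := hev.exists
  have huv : v + (u - v) = u := by abel
  refine ⟨ι₁ ⊕ ι₂, inferInstance, inferInstance, glue v (u - v) ε a₁ a₂, 2 + ε * (m₁ + m₂), ?_, ?_,
    fun c => (T₁ (finProdFinEquiv.symm c).1).comp (T₂ (finProdFinEquiv.symm c).2)
      (fun x => -v + ε • x) (fun x => -(u - v) + ε • x) 0, ?_, ?_⟩
  · rw [Fintype.card_sum, hc₁, hc₂]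
  · have := lb_glue hf₁.uu hf₂.uu h12 hlb₁ hlb₂ hε (by rw [← mul_add]; exact hε1.le)
    rwa [huv] at this
  · intro c c' hcc
    simp only at hcc
    have e1 : (T₁ (finProdFinEquiv.symm c).1).Sib = (T₁ (finProdFinEquiv.symm c').1).Sib := by
      funext i j
      rw [← FT.sib_comp_inl (T₂ := T₂ (finProdFinEquiv.symm c).2) (f₁ := fun x => -v + ε • x)
        (f₂ := fun x => -(u - v) + ε • x) (q := 0) (ho₁ _).ok, hcc, FT.sib_comp_inl (ho₁ _).ok]
    have e2 : (T₂ (finProdFinEquiv.symm c).2).Sib = (T₂ (finProdFinEquiv.symm c').2).Sib := by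
      funext i j
      rw [← FT.sib_comp_inr (T₁ := T₁ (finProdFinEquiv.symm c).1) (f₁ := fun x => -v + ε • x)
        (f₂ := fun x => -(u - v) + ε • x) (q := 0) (ho₂ _).ok, hcc, FT.sib_comp_inr (ho₂ _).ok]
    exact finProdFinEquiv.symm.injective (Prod.ext (hT₁ e1) (hT₂ e2))
  · intro c
    set c₁ := (finProdFinEquiv.symm c).1
    set c₂ := (finProdFinEquiv.symm c).2
    constructor
    · have := opt_comp (q := 0) (ho₁ c₁) (ho₂ c₂) hf₁.uu hf₂.uu hε (s₁ := 1 - ε * s₁ c₁)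
        (s₂ := 1 - ε * s₂ c₂) (by linarith [hε2 c₁]) (by linarith [hε3 c₂]) (by rw [hs₁]; module)
        (by rw [hs₂]; module)
      rwa [huv] at this
    · exact ⟨0, by simp [FT.comp]⟩

/-! ### The five point gadget and its two optimal trees -/

/-- The labels. -/
def lab9 : Fin 9 → Option (Fin 5) :=
  ![some 0, some 1, some 2, some 3, some 4, none, none, none, none]

/-- A tree with nine vertices, five leaves and top vertex `5`. -/
def t9 (par : Fin 9 → Option (Fin 9)) (dep : Fin 9 → ℕ) (co : Fin 9 → ℤ × ℤ) (u v : E) :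
    FT E (Fin 5) where
  V := Fin 9
  fin := inferInstance
  par := par
  dep := dep
  lab := lab9
  pos := fun i => vec u v (co i).1 (co i).2
  top := 5

/-- The combinatorial conditions. -/
def Cond (par : Fin 9 → Option (Fin 9)) (dep : Fin 9 → ℕ) (co : Fin 9 → ℤ × ℤ)
    (el : Fin 9 → ℤ) : Prop :=
  (par 5 = none) ∧ (∀ v, par v = none → v = 5) ∧ (∀ v w, par v = some w → dep w < dep v) ∧
  (∀ v w i, lab9 w = some i → par v ≠ some w) ∧
  (∀ v, lab9 v = none → ∃ c₁ c₂, c₁ ≠ c₂ ∧ ∀ w, par w = some v ↔ w = c₁ ∨ w = c₂) ∧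
  (∀ v i, lab9 v = some i → co v = co5 i) ∧
  (∀ v w, par v = some w → 0 < el v ∧
    nrm ((co v).1 - (co w).1, (co v).2 - (co w).2) = el v * el v) ∧ el 5 = 0 ∧ ∑ v, el v = 41

lemma dist_vec {u v : E} (h : Frame u v) {x y x' y' k : ℤ} (hk : 0 < k)
    (hn : nrm (x - x', y - y') = k * k) : dist (vec u v x y) (vec u v x' y') = k := by
  have h1 : vec u v (x : ℝ) y - vec u v x' y' = vec u v ((x : ℝ) - x') (y - y') := by
    simp only [vec]
    module
  have h2 := h.norm_sq ((x : ℝ) - x') (y - y')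
  have h3 : (((x - x') * (x - x') + (x - x') * (y - y') + (y - y') * (y - y') : ℤ) : ℝ) =
      ((k * k : ℤ) : ℝ) := by exact_mod_cast hn
  push_cast at h3
  have hk' : (0 : ℝ) < k := by exact_mod_cast hk
  rw [dist_eq_norm, h1]
  have h4 : ‖vec u v ((x : ℝ) - x') (y - y')‖ ^ 2 = (k : ℝ) ^ 2 := by rw [h2]; nlinarith
  exact (pow_left_inj₀ (norm_nonneg _) hk'.le two_ne_zero).1 h4

lemma t9_opt {u v : E} (h : Frame u v) {par : Fin 9 → Option (Fin 9)} {dep : Fin 9 → ℕ}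
    {co : Fin 9 → ℤ × ℤ} {el : Fin 9 → ℤ} (hc : Cond par dep co el)
    (htop : 2 * (co 5).1 + (co 5).2 = 0) : Opt (t9 par dep co u v) u (a5 u v) 41 := by
  obtain ⟨h1, h2, h3, h4, h5, h6, h7, h8, h9⟩ := hc
  have hd : ∀ v' w, par v' = some w → dist (vec u v (co v').1 (co v').2)
      (vec u v (co w).1 (co w).2) = el v' := fun v' w hw =>
    dist_vec h (h7 v' w hw).1 (h7 v' w hw).2
  constructor
  · refine ⟨h1, h2, h3, ?_, ?_, h4, h5, ?_, ?_⟩
    · show ∀ i : Fin 5, ∃ v : Fin 9, lab9 v = some i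
      decide
    · show ∀ (v w : Fin 9) (i : Fin 5), lab9 v = some i → lab9 w = some i → v = w
      decide
    · intro w i hw
      show vec u v (co w).1 (co w).2 = a5 u v i
      rw [a5, h6 w i hw]
    · intro w x hw
      show vec u v (co w).1 (co w).2 ≠ vec u v (co x).1 (co x).2
      have := hd w x hw
      rw [← dist_pos, this]
      exact_mod_cast (h7 w x hw).1
  · have e1 : (t9 par dep co u v).W = ∑ w : Fin 9, (el w : ℝ) := by
      refine Finset.sum_congr rfl fun w _ => ?_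
      show (par w).elim 0 (fun x => dist (vec u v (co w).1 (co w).2)
        (vec u v (co x).1 (co x).2)) = el w
      cases hw : par w with
      | none =>
        rw [h2 w hw, h8]
        simp
      | some x =>
        exact hd w x hw
    rw [e1]
    have e2 : ((∑ w, el w : ℤ) : ℝ) = 41 := by rw [h9]; norm_num
    push_cast at e2
    rw [e2]
    have e3 : ⟪(t9 par dep co u v).pos (t9 par dep co u v).top, u⟫_ℝ = 0 := by
      show ⟪vec u v (co 5).1 (co 5).2, u⟫_ℝ = 0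
      have := h.inner (co 5).1 (co 5).2 1 0
      have hu : vec u v (1 : ℝ) 0 = u := by simp [vec]
      rw [hu] at this
      rw [this]
      have h10 : ((2 * (co 5).1 + (co 5).2 : ℤ) : ℝ) = 0 := by rw [htop]; norm_num
      push_cast at h10
      linarith
    rw [e3, add_zero]

/-- The parents of the first tree. -/
def parA : Fin 9 → Option (Fin 9) :=
  ![some 6, some 5, some 7, some 8, some 8, none, some 5, some 6, some 7]

/-- The parents of the second tree. -/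
def parB : Fin 9 → Option (Fin 9) :=
  ![some 7, some 8, some 8, some 6, some 5, none, some 5, some 6, some 7]

/-- The depths. -/
def dep9 : Fin 9 → ℕ := ![9, 9, 9, 9, 9, 0, 1, 2, 3]

/-- The positions of the first tree. -/
def coA : Fin 9 → ℤ × ℤ :=
  ![(1, -6), (6, -16), (-3, -10), (-11, 0), (-10, 16), (6, -12), (1, -7), (-3, -7), (-10, 0)]

/-- The positions of the second tree. -/
def coB : Fin 9 → ℤ × ℤ :=
  ![(1, -6), (6, -16), (-3, -10), (-11, 0), (-10, 16), (-6, 12), (-6, 0), (0, -6), (0, -10)]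

lemma condA : Cond parA dep9 coA ![1, 4, 3, 1, 16, 0, 5, 4, 7] := by
  unfold Cond
  decide

lemma condB : Cond parB dep9 coB ![1, 6, 3, 5, 4, 0, 12, 6, 4] := by
  unfold Cond
  decide

end Pool.Agent.E8helper35.Low
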