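import Pool.Agent.E8helper35.Low.Cert5

/-!
# The lower bound for a composition
-/

set_option autoImplicit false

namespace Pool.Agent.E8helper35.Low

open scoped InnerProductSpace

variable {E : Type} [NormedAddCommGroup E] [InnerProductSpace ℝ E] {ι₁ ι₂ : Type}

/-- The points of a composition. -/
def glue (u₁ u₂ : E) (ε : ℝ) (a₁ : ι₁ → E) (a₂ : ι₂ → E) : ι₁ ⊕ ι₂ → E :=
  Sum.elim (fun i => -u₁ + ε • a₁ i) (fun j => -u₂ + ε • a₂ j)

lemma lb_leaf {u : E} (hu : ‖u‖ = 1) : LB u (fun _ : Unit => (0 : E)) 0 := by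
  intro t _ p
  have h1 : () ∈ t.leaves := by
    cases h : t.leaves with
    | nil => exact absurd h t.leaves_ne_nil
    | cons i l => simp
  have h2 := BT.dist_le_len (a := fun _ : Unit => (0 : E)) h1 p
  have h3 := real_inner_le_norm p u
  rw [hu, mul_one] at h3
  rw [dist_zero_right] at h2
  linarith

/-- A subtree with leaves in one of the two parts. -/
lemma lb_part {ι κ : Type} (u₁ : E) (hu₁ : ‖u₁‖ = 1) {ε : ℝ} (hε : 0 < ε) {a₁ : ι → E}
    {m₁ : ℝ} (h₁ : LB u₁ a₁ m₁) (a : κ → E) (f : κ → ι) (g : ι → κ) (hfg : ∀ i, f (g i) = i)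
    (hg : ∀ i, a (g i) = -u₁ + ε • a₁ i) (t : BT κ E) (hnd : t.leaves.Nodup)
    (hmem : ∀ k ∈ t.leaves, ∃ i, k = g i) (hall : ∀ i, g i ∈ t.leaves) (q : E) :
    ε * m₁ + ⟪q, u₁⟫_ℝ + 1 ≤ t.len a q := by
  have hε' : ε ≠ 0 := hε.ne'
  let h : E → E := fun x => (1 / ε) • (x + u₁)
  have hc : ∀ x y, dist (h x) (h y) = (1 / ε) * dist x y := by
    intro x y
    simp only [h]
    rw [dist_smul₀, dist_add_right, Real.norm_of_nonneg (by positivity)]
  have hfull : (t.map f h).Full := by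
    rw [BT.Full, BT.leaves_map]
    refine ⟨List.Nodup.map_on ?_ hnd, ?_⟩
    · intro x hx y hy hxy
      obtain ⟨i, rfl⟩ := hmem x hx
      obtain ⟨j, rfl⟩ := hmem y hy
      rw [hfg, hfg] at hxy
      rw [hxy]
    · intro i
      exact List.mem_map.2 ⟨g i, hall i, hfg i⟩
  have h2 := h₁ _ hfull (h q)
  have h3 := BT.len_map (a := a) (b := a₁) f h (1 / ε) hc t (by
    intro k hk
    obtain ⟨i, rfl⟩ := hmem k hk
    simp only [h]
    rw [hfg, hg, neg_add_cancel_comm, smul_smul, one_div_mul_cancel hε', one_smul]) q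
  rw [h3] at h2
  have h4 : ⟪h q, u₁⟫_ℝ = (1 / ε) * (⟪q, u₁⟫_ℝ + 1) := by
    simp only [h]
    rw [inner_smul_left, inner_add_left, real_inner_self_eq_norm_sq, hu₁]
    simp
  rw [h4] at h2
  have h5 : ε * (m₁ + (1 / ε) * (⟪q, u₁⟫_ℝ + 1)) ≤ ε * ((1 / ε) * t.len a q) :=
    mul_le_mul_of_nonneg_left h2 hε.le
  have h6 : ε * (m₁ + (1 / ε) * (⟪q, u₁⟫_ℝ + 1)) = ε * m₁ + ⟪q, u₁⟫_ℝ + 1 := by
    field_simp
    ring
  have h7 : ε * ((1 / ε) * t.len a q) = t.len a q := by field_simp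
  linarith

variable [Fintype ι₁] [Fintype ι₂] [Nonempty ι₁] [Nonempty ι₂]

/-- Trees in which the two parts are mixed. -/
lemma mixed_le {u₁ u₂ : E} (h11 : ⟪u₁, u₁⟫_ℝ = 1) (h22 : ⟪u₂, u₂⟫_ℝ = 1)
    (h12 : ⟪u₁, u₂⟫_ℝ = -(1 / 2)) (hu : ‖u₁ + u₂‖ = 1) (c d : BT (ι₁ ⊕ ι₂) E) {i : ι₁} {j : ι₂}
    (hi : Sum.inl i ∈ c.leaves) (hj : Sum.inr j ∈ c.leaves) (p q : E) :
    Real.sqrt 3 + 1 / 2 + ⟪p, u₁ + u₂⟫_ℝ ≤ dist p q +
      (c.len (Sum.elim (fun _ => -u₁) fun _ => -u₂) q +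
        d.len (Sum.elim (fun _ => -u₁) fun _ => -u₂) q) := by
  have h21 : ⟪u₂, u₁⟫_ℝ = -(1 / 2) := by rw [real_inner_comm]; exact h12
  have hdist : ∀ x y : E, ⟪x - y, u₁ + u₂⟫_ℝ ≤ dist x y := by
    intro x y
    have := real_inner_le_norm (x - y) (u₁ + u₂)
    rwa [hu, mul_one, ← dist_eq_norm] at this
  set b : ι₁ ⊕ ι₂ → E := Sum.elim (fun _ => -u₁) fun _ => -u₂ with hb
  have h3 : dist (-u₁) (-u₂) = Real.sqrt 3 := by
    rw [dist_neg_neg, dist_eq_norm]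
    have : ‖u₁ - u₂‖ ^ 2 = 3 := by
      rw [← real_inner_self_eq_norm_sq, inner_sub_left, inner_sub_right, inner_sub_right, h11, h22,
        h12, h21]
      norm_num
    rw [← this, Real.sqrt_sq (norm_nonneg _)]
  have h4 : Real.sqrt 3 ≤ c.len b q := by
    rcases BT.dist_le_len₂ (a := b) hi hj q with h | h
    · rw [← h3]
      exact h
    · exact absurd h (by simp)
  obtain ⟨k, hk⟩ : ∃ k, k ∈ d.leaves := by
    cases h : d.leaves with
    | nil => exact absurd h d.leaves_ne_nil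
    | cons k l => exact ⟨k, by simp⟩
  have h5 := BT.dist_le_len (a := b) hk q
  have h6 : 1 / 2 + ⟪p, u₁ + u₂⟫_ℝ ≤ dist p (b k) := by
    have h7 := hdist p (b k)
    rw [inner_sub_left] at h7
    have h8 : ⟪b k, u₁ + u₂⟫_ℝ = -(1 / 2) := by
      rcases k with k | k
      · simp only [hb, Sum.elim_inl, inner_neg_left, inner_add_right, h11, h12]
        norm_num
      · simp only [hb, Sum.elim_inr, inner_neg_left, inner_add_right, h22, h21]
        norm_num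
    rw [h8] at h7
    linarith
  have h7 := dist_triangle p q (b k)
  linarith

/-- **The lower bound for a composition.** -/
theorem lb_glue {u₁ u₂ : E} (hu₁ : ‖u₁‖ = 1) (hu₂ : ‖u₂‖ = 1) (h12 : ⟪u₁, u₂⟫_ℝ = -(1 / 2))
    {a₁ : ι₁ → E} {a₂ : ι₂ → E} {m₁ m₂ : ℝ} (h₁ : LB u₁ a₁ m₁) (h₂ : LB u₂ a₂ m₂) {ε : ℝ}
    (hε : 0 < ε)
    (hsmall : ε * (m₁ + m₂) + ε * (∑ i, ‖a₁ i‖ + ∑ j, ‖a₂ j‖) ≤ Real.sqrt 3 - 3 / 2) :
    LB (u₁ + u₂) (glue u₁ u₂ ε a₁ a₂) (2 + ε * (m₁ + m₂)) := by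
  intro t ht p
  have h21 : ⟪u₂, u₁⟫_ℝ = -(1 / 2) := by rw [real_inner_comm]; exact h12
  have h11 : ⟪u₁, u₁⟫_ℝ = 1 := by rw [real_inner_self_eq_norm_sq, hu₁]; norm_num
  have h22 : ⟪u₂, u₂⟫_ℝ = 1 := by rw [real_inner_self_eq_norm_sq, hu₂]; norm_num
  have hu : ‖u₁ + u₂‖ = 1 := by
    have : ‖u₁ + u₂‖ ^ 2 = 1 := by
      rw [← real_inner_self_eq_norm_sq, inner_add_left, inner_add_right, inner_add_right, h11, h22,
        h12, h21]
      norm_num
    have h0 := norm_nonneg (u₁ + u₂)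
    nlinarith
  have hdist : ∀ x y : E, ⟪x - y, u₁ + u₂⟫_ℝ ≤ dist x y := by
    intro x y
    have := real_inner_le_norm (x - y) (u₁ + u₂)
    rwa [hu, mul_one, ← dist_eq_norm] at this
  obtain ⟨i₀⟩ := ‹Nonempty ι₁›
  obtain ⟨j₀⟩ := ‹Nonempty ι₂›
  cases t with
  | leaf k =>
    have h3 := ht.2 (Sum.inl i₀)
    have h4 := ht.2 (Sum.inr j₀)
    rw [BT.leaves, List.mem_singleton] at h3 h4
    rw [← h3] at h4
    exact absurd h4 (by simp)
  | node q l r =>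
    have hnd := ht.1
    rw [BT.leaves, List.nodup_append'] at hnd
    obtain ⟨hnl, hnr, -⟩ := hnd
    have hmem : ∀ k, k ∈ l.leaves ∨ k ∈ r.leaves := fun k => by
      have := ht.2 k
      rwa [BT.leaves, List.mem_append] at this
    have hpart1 : ∀ s : BT (ι₁ ⊕ ι₂) E, s.leaves.Nodup → (∀ k ∈ s.leaves, ∃ i, k = Sum.inl i) →
        (∀ i, Sum.inl i ∈ s.leaves) → ε * m₁ + ⟪q, u₁⟫_ℝ + 1 ≤ s.len (glue u₁ u₂ ε a₁ a₂) q := by
      intro s hs1 hs2 hs3
      exact lb_part u₁ hu₁ hε h₁ (glue u₁ u₂ ε a₁ a₂) (Sum.elim id fun _ => i₀) Sum.inl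
        (fun _ => rfl) (fun _ => rfl) s hs1 hs2 hs3 q
    have hpart2 : ∀ s : BT (ι₁ ⊕ ι₂) E, s.leaves.Nodup → (∀ k ∈ s.leaves, ∃ i, k = Sum.inr i) →
        (∀ i, Sum.inr i ∈ s.leaves) → ε * m₂ + ⟪q, u₂⟫_ℝ + 1 ≤ s.len (glue u₁ u₂ ε a₁ a₂) q := by
      intro s hs1 hs2 hs3
      exact lb_part u₂ hu₂ hε h₂ (glue u₁ u₂ ε a₁ a₂) (Sum.elim (fun _ => j₀) id) Sum.inr
        (fun _ => rfl) (fun _ => rfl) s hs1 hs2 hs3 q
    have hpq := hdist p q
    rw [inner_sub_left] at hpq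
    have hq : ⟪q, u₁ + u₂⟫_ℝ = ⟪q, u₁⟫_ℝ + ⟪q, u₂⟫_ℝ := inner_add_right _ _ _
    -- the mixed case
    have hmix : (∃ i j, Sum.inl i ∈ l.leaves ∧ Sum.inr j ∈ l.leaves) ∨
        (∃ i j, Sum.inl i ∈ r.leaves ∧ Sum.inr j ∈ r.leaves) →
        2 + ε * (m₁ + m₂) + ⟪p, u₁ + u₂⟫_ℝ ≤ (BT.node q l r).len (glue u₁ u₂ ε a₁ a₂) p := by
      intro hcase
      have h3 := BT.len_move (glue u₁ u₂ ε a₁ a₂) (Sum.elim (fun _ => -u₁) fun _ => -u₂)
        (BT.node q l r) p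
      have h4 : ((BT.node q l r).leaves.map fun k => dist (glue u₁ u₂ ε a₁ a₂ k)
          (Sum.elim (fun _ => -u₁) (fun _ => -u₂) k)).sum =
          ε * (∑ i, ‖a₁ i‖ + ∑ j, ‖a₂ j‖) := by
        rw [ht.map_sum, Fintype.sum_sum_type]
        simp only [glue, Sum.elim_inl, Sum.elim_inr, dist_eq_norm,
          add_sub_cancel_left, norm_smul, Real.norm_of_nonneg hε.le, ← Finset.mul_sum]
        ring
      rw [h4] at h3
      have h5 : Real.sqrt 3 + 1 / 2 + ⟪p, u₁ + u₂⟫_ℝ ≤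
          (BT.node q l r).len (Sum.elim (fun _ => -u₁) fun _ => -u₂) p := by
        rw [BT.len]
        rcases hcase with ⟨i, j, hi, hj⟩ | ⟨i, j, hi, hj⟩
        · exact mixed_le h11 h22 h12 hu l r hi hj p q
        · have := mixed_le h11 h22 h12 hu r l hi hj p q
          linarith
      linarith
    by_cases hL1 : ∃ i, Sum.inl i ∈ l.leaves
    · obtain ⟨i, hi⟩ := hL1
      by_cases hL2 : ∃ j, Sum.inr j ∈ l.leaves
      · obtain ⟨j, hj⟩ := hL2
        exact hmix (Or.inl ⟨i, j, hi, hj⟩)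
      · have hR2 := (hmem (Sum.inr j₀)).resolve_left fun hc => hL2 ⟨_, hc⟩
        by_cases hR1 : ∃ i, Sum.inl i ∈ r.leaves
        · obtain ⟨i', hi'⟩ := hR1
          exact hmix (Or.inr ⟨i', j₀, hi', hR2⟩)
        · -- separated
          have e1 := hpart1 l hnl (fun k hk => by
            rcases k with i | j
            · exact ⟨i, rfl⟩
            · exact absurd ⟨j, hk⟩ hL2) (fun i => (hmem _).resolve_right fun hc => hR1 ⟨i, hc⟩)
          have e2 := hpart2 r hnr (fun k hk => by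
            rcases k with i | j
            · exact absurd ⟨i, hk⟩ hR1
            · exact ⟨j, rfl⟩) (fun j => (hmem _).resolve_left fun hc => hL2 ⟨j, hc⟩)
          rw [BT.len]
          linarith
    · have hR1 := (hmem (Sum.inl i₀)).resolve_left fun hc => hL1 ⟨_, hc⟩
      by_cases hR2 : ∃ j, Sum.inr j ∈ r.leaves
      · obtain ⟨j, hj⟩ := hR2
        exact hmix (Or.inr ⟨i₀, j, hR1, hj⟩)
      · -- separated
        have e1 := hpart1 r hnr (fun k hk => by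
          rcases k with i | j
          · exact ⟨i, rfl⟩
          · exact absurd ⟨j, hk⟩ hR2) (fun i => (hmem _).resolve_left fun hc => hL1 ⟨i, hc⟩)
        have e2 := hpart2 l hnl (fun k hk => by
          rcases k with i | j
          · exact absurd ⟨i, hk⟩ hL1
          · exact ⟨j, rfl⟩) (fun j => (hmem _).resolve_right fun hc => hR2 ⟨j, hc⟩)
        rw [BT.len]
        linarith

end Pool.Agent.E8helper35.Low
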