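import Pool.Agent.E8helper35.Low.Ten

/-!
# The graph of a full tree
-/

set_option autoImplicit false

namespace Pool.Agent.E8helper35.Low

namespace FT

variable {E ι : Type}

/-- The graph of a tree, with an additional root vertex `none` which is connected to the top. -/
def gr (T : FT E ι) : SimpleGraph (Option T.V) :=
  SimpleGraph.fromRel fun x y => ∃ v, x = some v ∧ y = T.par v

variable {T : FT E ι} {a : ι → E}

lemma par_ne (h : T.OK a) (v : T.V) : T.par v ≠ some v := by
  intro hv
  exact lt_irrefl _ (h.dep_lt v v hv)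

lemma adj_iff (h : T.OK a) (x y : Option T.V) :
    T.gr.Adj x y ↔ ∃ v, (x = some v ∧ y = T.par v) ∨ (y = some v ∧ x = T.par v) := by
  rw [gr, SimpleGraph.fromRel_adj]
  constructor
  · rintro ⟨-, ⟨v, h1⟩ | ⟨v, h1⟩⟩
    · exact ⟨v, Or.inl h1⟩
    · exact ⟨v, Or.inr h1⟩
  · rintro ⟨v, ⟨rfl, rfl⟩ | ⟨rfl, rfl⟩⟩
    · exact ⟨fun hc => par_ne h v hc.symm, Or.inl ⟨v, rfl, rfl⟩⟩
    · exact ⟨fun hc => par_ne h v hc, Or.inr ⟨v, rfl, rfl⟩⟩

lemma adj_par (h : T.OK a) (v : T.V) : T.gr.Adj (some v) (T.par v) :=
  (adj_iff h _ _).2 ⟨v, Or.inl ⟨rfl, rfl⟩⟩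

lemma reach (h : T.OK a) : ∀ (n : ℕ) (v : T.V), T.dep v = n → T.gr.Reachable (some v) none := by
  intro n
  induction n using Nat.strong_induction_on with
  | _ n ih =>
    intro v hv
    have h1 := (adj_par h v).reachable
    cases hp : T.par v with
    | none => rwa [hp] at h1
    | some w =>
      rw [hp] at h1
      exact h1.trans (ih (T.dep w) (hv ▸ h.dep_lt v w hp) w rfl)

lemma gr_connected (h : T.OK a) : T.gr.Connected := by
  have : ∀ x, T.gr.Reachable x none := by
    rintro (_ | v)
    · exact SimpleGraph.Reachable.refl _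
    · exact reach h _ v rfl
  exact ⟨fun x y => (this x).trans (this y).symm⟩

lemma edge_inj (h : T.OK a) : Function.Injective fun v => s(some v, T.par v) := by
  intro v w hvw
  simp only [Sym2.eq_iff] at hvw
  rcases hvw with ⟨h1, -⟩ | ⟨h1, h2⟩
  · exact Option.some.inj h1
  · have h3 := h.dep_lt w v h1.symm
    have h4 := h.dep_lt v w h2
    omega

lemma edgeSet_gr (h : T.OK a) : T.gr.edgeSet = Set.range fun v => s(some v, T.par v) := by
  ext e
  induction e using Sym2.ind with
  | _ x y =>
    rw [SimpleGraph.mem_edgeSet, adj_iff h]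
    constructor
    · rintro ⟨v, ⟨rfl, rfl⟩ | ⟨rfl, rfl⟩⟩
      · exact ⟨v, rfl⟩
      · exact ⟨v, Sym2.eq_swap⟩
    · rintro ⟨v, hv⟩
      simp only [Sym2.eq_iff] at hv
      rcases hv with ⟨h1, h2⟩ | ⟨h1, h2⟩
      · exact ⟨v, Or.inl ⟨h1.symm, h2.symm⟩⟩
      · exact ⟨v, Or.inr ⟨h1.symm, h2.symm⟩⟩

lemma gr_isTree (h : T.OK a) : T.gr.IsTree := by
  rw [SimpleGraph.isTree_iff_connected_and_card]
  refine ⟨gr_connected h, ?_⟩
  rw [edgeSet_gr h, Nat.card_coe_set_eq, ← Set.image_univ,
    Set.ncard_image_of_injective _ (edge_inj h), Set.ncard_univ, Nat.card_eq_fintype_card,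
    Nat.card_eq_fintype_card, Fintype.card_option]

lemma nbr_none (h : T.OK a) : T.gr.neighborSet none = {some T.top} := by
  ext x
  rw [SimpleGraph.mem_neighborSet, adj_iff h, Set.mem_singleton_iff]
  constructor
  · rintro ⟨v, ⟨h1, -⟩ | ⟨rfl, h2⟩⟩
    · exact absurd h1 (by simp)
    · rw [h.top_of v h2.symm]
  · rintro rfl
    exact ⟨T.top, Or.inr ⟨rfl, h.par_top.symm⟩⟩

lemma nbr_some (h : T.OK a) (v : T.V) :
    T.gr.neighborSet (some v) = insert (T.par v) (some '' {w | T.par w = some v}) := by
  ext x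
  rw [SimpleGraph.mem_neighborSet, adj_iff h, Set.mem_insert_iff]
  constructor
  · rintro ⟨w, ⟨h1, h2⟩ | ⟨h1, h2⟩⟩
    · rw [Option.some.inj h1]
      exact Or.inl h2
    · exact Or.inr ⟨w, h2.symm, h1.symm⟩
  · rintro (h1 | ⟨w, h1, h2⟩)
    · exact ⟨v, Or.inl ⟨rfl, h1⟩⟩
    · exact ⟨w, Or.inr ⟨h2.symm, h1.symm⟩⟩

lemma nbr_leaf (h : T.OK a) {v : T.V} {i : ι} (hv : T.lab v = some i) :
    T.gr.neighborSet (some v) = {T.par v} := by
  rw [nbr_some h]
  have : {w | T.par w = some v} = ∅ := by
    ext w
    simp only [Set.mem_setOf_eq, Set.mem_empty_iff_false, iff_false]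
    exact h.leaf w v i hv
  rw [this]
  simp

lemma nbr_inner (h : T.OK a) {v : T.V} (hv : T.lab v = none) :
    (T.gr.neighborSet (some v)).ncard = 3 := by
  obtain ⟨c₁, c₂, hne, hc⟩ := h.two v hv
  rw [nbr_some h]
  have h1 : {w | T.par w = some v} = {c₁, c₂} := by
    ext w
    simp only [Set.mem_setOf_eq, Set.mem_insert_iff, Set.mem_singleton_iff]
    exact hc w
  have h2 : T.par c₁ = some v := (hc c₁).2 (Or.inl rfl)
  have h3 : T.par c₂ = some v := (hc c₂).2 (Or.inr rfl)
  rw [h1, Set.image_pair, Set.ncard_eq_three]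
  refine ⟨T.par v, some c₁, some c₂, ?_, ?_, by simpa using hne, rfl⟩
  · intro hc'
    have := h.dep_lt v c₁ hc'
    have := h.dep_lt c₁ v h2
    omega
  · intro hc'
    have := h.dep_lt v c₂ hc'
    have := h.dep_lt c₂ v h3
    omega

/-- The vertex of a leaf. -/
noncomputable def lf (h : T.OK a) (i : ι) : T.V := (h.lab_ex i).choose

lemma lab_lf (h : T.OK a) (i : ι) : T.lab (lf h i) = some i := (h.lab_ex i).choose_spec

lemma lf_of_lab (h : T.OK a) {v : T.V} {i : ι} (hv : T.lab v = some i) : v = lf h i :=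
  h.lab_inj v _ i hv (lab_lf h i)

/-- The number of inner vertices. -/
lemma card_inner [Fintype ι] (h : T.OK a) :
    Nat.card {v : T.V // T.lab v = none} + 1 = Fintype.card ι := by
  classical
  -- count the vertices which are not the top by their parents
  have h1 : (Finset.univ.filter fun w : T.V => T.par w ≠ none).card + 1 = Fintype.card T.V := by
    have : Finset.univ.filter (fun w : T.V => T.par w ≠ none) = Finset.univ.erase T.top := by
      ext w
      simp only [Finset.mem_filter, Finset.mem_univ, true_and, Finset.mem_erase, and_true]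
      constructor
      · rintro hw rfl
        exact hw h.par_top
      · intro hw hc
        exact hw (h.top_of w hc)
    rw [this, Finset.card_erase_of_mem (Finset.mem_univ _), Finset.card_univ]
    have : 0 < Fintype.card T.V := Fintype.card_pos_iff.2 ⟨T.top⟩
    omega
  have h2 : (Finset.univ.filter fun w : T.V => T.par w ≠ none).card =
      ∑ v : T.V, (Finset.univ.filter fun w : T.V => T.par w = some v).card := by
    rw [← Finset.card_biUnion]
    · congr 1
      ext w
      simp only [Finset.mem_filter, Finset.mem_univ, true_and, Finset.mem_biUnion]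
      exact Option.ne_none_iff_exists'
    · intro x _ y _ hxy
      rw [Function.onFun, Finset.disjoint_left]
      intro w hw hw'
      simp only [Finset.mem_filter, Finset.mem_univ, true_and] at hw hw'
      rw [hw] at hw'
      exact hxy (Option.some.inj hw')
  have h3 : ∀ v : T.V, (Finset.univ.filter fun w : T.V => T.par w = some v).card =
      if T.lab v = none then 2 else 0 := by
    intro v
    split_ifs with hv
    · obtain ⟨c₁, c₂, hne, hc⟩ := h.two v hv
      have : Finset.univ.filter (fun w : T.V => T.par w = some v) = {c₁, c₂} := by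
        ext w
        simp only [Finset.mem_filter, Finset.mem_univ, true_and, Finset.mem_insert,
          Finset.mem_singleton]
        exact hc w
      rw [this, Finset.card_pair hne]
    · obtain ⟨i, hi⟩ := Option.ne_none_iff_exists'.1 hv
      rw [Finset.card_eq_zero, Finset.filter_eq_empty_iff]
      intro w _
      exact h.leaf w v i hi
  have h4 : Fintype.card T.V = (Finset.univ.filter fun v : T.V => T.lab v = none).card +
      (Finset.univ.filter fun v : T.V => ¬ T.lab v = none).card := by
    rw [← Finset.card_univ, Finset.card_filter_add_card_filter_not]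
  have h5 : (Finset.univ.filter fun v : T.V => ¬ T.lab v = none).card = Fintype.card ι := by
    rw [← Finset.card_univ]
    symm
    refine Finset.card_bij (fun i _ => lf h i) ?_ ?_ ?_
    · intro i _
      simp [lab_lf h i]
    · intro i _ j _ hij
      have := lab_lf h i
      rw [hij, lab_lf h j] at this
      exact (Option.some.inj this).symm
    · intro v hv
      obtain ⟨i, hi⟩ := Option.ne_none_iff_exists'.1 (Finset.mem_filter.1 hv).2
      exact ⟨i, Finset.mem_univ _, (lf_of_lab h hi).symm⟩
  have h6 : Nat.card {v : T.V // T.lab v = none} =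
      (Finset.univ.filter fun v : T.V => T.lab v = none).card := by
    rw [Nat.card_eq_fintype_card, Fintype.card_subtype]
  simp only [h3] at h2
  rw [← Finset.sum_filter, Finset.sum_const, smul_eq_mul] at h2
  omega

/-- The positions of the vertices, with the root at `p`. -/
def posr (T : FT E ι) (p : E) (x : Option T.V) : E := x.elim p T.pos

/-- Siblings have a common neighbour. -/
lemma sib_iff (h : T.OK a) {i j : ι} (hij : i ≠ j) :
    T.Sib i j ↔ ∃ y, T.gr.Adj (some (lf h i)) y ∧ T.gr.Adj (some (lf h j)) y := by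
  constructor
  · rintro ⟨-, v, w, x, hv, hw, hpv, hpw⟩
    rw [lf_of_lab h hv] at hpv
    rw [lf_of_lab h hw] at hpw
    refine ⟨some x, ?_, ?_⟩
    · rw [← hpv]; exact adj_par h _
    · rw [← hpw]; exact adj_par h _
  · rintro ⟨y, hy1, hy2⟩
    have h1 : y ∈ T.gr.neighborSet (some (lf h i)) := hy1
    have h2 : y ∈ T.gr.neighborSet (some (lf h j)) := hy2
    rw [nbr_leaf h (lab_lf h i), Set.mem_singleton_iff] at h1
    rw [nbr_leaf h (lab_lf h j), Set.mem_singleton_iff] at h2
    rcases y with _ | x
    · have e1 := h.top_of _ h1.symm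
      have e2 := h.top_of _ h2.symm
      have e3 := lab_lf h i
      rw [e1, ← e2, lab_lf h j] at e3
      exact absurd (Option.some.inj e3).symm hij
    · exact ⟨hij, lf h i, lf h j, x, lab_lf h i, lab_lf h j, h1.symm, h2.symm⟩

end FT

end Pool.Agent.E8helper35.Low
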