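import Pool.Agent.E8helper35.Low.Gad

/-!
# The gadget with ten points and two optimal trees
-/

set_option autoImplicit false

namespace Pool.Agent.E8helper35.Low

open scoped InnerProductSpace Topology

variable {E : Type} [NormedAddCommGroup E] [InnerProductSpace ℝ E]

/-- The two optimal trees of the five point gadget. -/
def tt (u v : E) (b : Fin 2) : FT E (Fin 5) :=
  if b = 0 then t9 parA dep9 coA u v else t9 parB dep9 coB u v

/-- The sign of a choice. -/
noncomputable def sg (b : Fin 2) : ℝ := if b = 0 then 1 else -1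

lemma tt_opt {u v : E} (h : Frame u v) (b : Fin 2) : Opt (tt u v b) u (a5 u v) 41 := by
  unfold tt
  split_ifs
  · exact t9_opt h condA (by decide)
  · exact t9_opt h condB (by decide)

lemma tt_top (u v : E) (b : Fin 2) :
    (tt u v b).pos (tt u v b).top = vec u v (6 * sg b) (-12 * sg b) := by
  by_cases hb : b = 0
  · have h1 : tt u v b = t9 parA dep9 coA u v := if_pos hb
    rw [h1, sg, if_pos hb]
    show vec u v ((coA 5).1 : ℝ) ((coA 5).2 : ℝ) = _
    have h2 : coA 5 = (6, -12) := rfl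
    rw [h2]
    norm_num
  · have h1 : tt u v b = t9 parB dep9 coB u v := if_neg hb
    rw [h1, sg, if_neg hb]
    show vec u v ((coB 5).1 : ℝ) ((coB 5).2 : ℝ) = _
    have h2 : coB 5 = (-6, 12) := rfl
    rw [h2]
    norm_num

lemma tt_sib (u v : E) (b : Fin 2) : (tt u v b).Sib 3 4 ↔ b = 0 := by
  unfold tt
  split_ifs with hb
  · refine ⟨fun _ => hb, fun _ => ⟨by decide, ?_⟩⟩
    show ∃ x y z : Fin 9, lab9 x = some 3 ∧ lab9 y = some 4 ∧ parA x = some z ∧ parA y = some z
    decide
  · refine ⟨fun h => ?_, fun h => absurd h hb⟩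
    obtain ⟨-, h⟩ := h
    have h' : ∃ x y z : Fin 9, lab9 x = some 3 ∧ lab9 y = some 4 ∧ parB x = some z ∧
      parB y = some z := h
    exact absurd h' (by decide)

theorem hasGad_ten : HasGad E 10 2 := by
  intro u v h
  obtain ⟨hf₁, hf₂, h12⟩ := h.split
  have huv : v + (u - v) = u := by abel
  set u₁ := v with hu₁
  set u₂ := u - v with hu₂
  have hev : ∀ᶠ ε in 𝓝[>] (0 : ℝ), 0 < ε ∧
      ε * (41 + 41 + (∑ i, ‖a5 u₁ (-u₂) i‖ + ∑ j, ‖a5 u₂ (-u₁) j‖)) < Real.sqrt 3 - 3 / 2 ∧
      ε * 6 < 1 :=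
    (eventually_mem_nhdsWithin).and ((ev_small _ sqrt3_gt).and (ev_small _ one_pos))
  obtain ⟨ε, hε, hε1, hε2⟩ := hev.exists
  refine ⟨Fin 5 ⊕ Fin 5, inferInstance, inferInstance,
    glue u₁ u₂ ε (a5 u₁ (-u₂)) (a5 u₂ (-u₁)), 2 + ε * (41 + 41), ?_, ?_,
    fun b => (tt u₁ (-u₂) b).comp (tt u₂ (-u₁) b) (fun x => -u₁ + ε • x) (fun x => -u₂ + ε • x)
      ((12 * sg b * ε) • u), ?_, ?_⟩
  · simp
  · have := lb_glue hf₁.uu hf₂.uu h12 (lb5 hf₁) (lb5 hf₂) hε (by rw [← mul_add]; exact hε1.le)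
    rwa [huv] at this
  · intro b c hbc
    simp only at hbc
    have h1 := FT.sib_comp_inl (T₂ := tt u₂ (-u₁) b) (f₁ := fun x => -u₁ + ε • x)
      (f₂ := fun x => -u₂ + ε • x) (q := (12 * sg b * ε) • u) (tt_opt hf₁ b).ok 3 4
    have h2 := FT.sib_comp_inl (T₂ := tt u₂ (-u₁) c) (f₁ := fun x => -u₁ + ε • x)
      (f₂ := fun x => -u₂ + ε • x) (q := (12 * sg c * ε) • u) (tt_opt hf₁ c).ok 3 4
    rw [hbc, h2, tt_sib, tt_sib] at h1
    fin_cases b <;> fin_cases c <;> simp_all
  · intro b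
    have hsg : sg b = 1 ∨ sg b = -1 := by
      unfold sg
      split_ifs
      · exact Or.inl rfl
      · exact Or.inr rfl
    have hs : 0 < 1 + 6 * sg b * ε := by
      rcases hsg with h | h <;> rw [h]
      · have : (0 : ℝ) < ε := hε
        linarith
      · linarith
    constructor
    · have := opt_comp (q := (12 * sg b * ε) • u) (tt_opt hf₁ b) (tt_opt hf₂ b) hf₁.uu hf₂.uu hε
        hs hs (by
          rw [tt_top, vec, ← huv]
          module) (by
          rw [tt_top, vec, ← huv]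
          module)
      rwa [huv] at this
    · exact ⟨12 * sg b * ε, rfl⟩

theorem hasGad_pow (k r : ℕ) : HasGad E (10 * k + r + 1) (2 ^ k) := by
  induction k with
  | zero =>
    induction r with
    | zero => exact hasGad_one
    | succ r ih =>
      have := hasGad_mul ih hasGad_one
      simpa [add_assoc] using this
  | succ k ih =>
    have := hasGad_mul ih hasGad_ten
    rw [show 10 * (k + 1) + r + 1 = 10 * k + r + 1 + 10 by ring, pow_succ]
    exact this

end Pool.Agent.E8helper35.Low
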